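import Mathlib

set_option autoImplicit false

/-!
# Partition of an aperiodic countable Borel equivalence relation into complete sections

`exists_matching`: the greedy matching of a Borel set by countably many Borel involutions.
`exists_sections`: the space is partitioned into Borel sets `B i`, with Borel maps `q i` onto `B i`
inside the classes, such that `q i` is injective on each piece of a finite Borel partition.
-/

namespace Pool.Agent.T2h30.KS

open Set

section Match

variable {X : Type} [MeasurableSpace X]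

/-- the unmatched part after `n` steps -/
def unm (s : ℕ → X → X) (R : Set X) : ℕ → Set X
  | 0 => R
  | n + 1 => {x | x ∈ unm s R n ∧ ¬ (s n x ∈ unm s R n ∧ s n x ≠ x)}

/-- the part matched at step `n` -/
def mat (s : ℕ → X → X) (R : Set X) (n : ℕ) : Set X :=
  {x | x ∈ unm s R n ∧ s n x ∈ unm s R n ∧ s n x ≠ x}

variable {s : ℕ → X → X} {R : Set X}

omit [MeasurableSpace X] in
theorem unm_anti {n m : ℕ} (h : n ≤ m) : unm s R m ⊆ unm s R n := by
  induction h with
  | refl => exact Subset.rfl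
  | step h ih => exact fun x hx => ih hx.1

omit [MeasurableSpace X] in
theorem mat_unique {x : X} {n m : ℕ} (hn : x ∈ mat s R n) (hm : x ∈ mat s R m) : n = m := by
  have key : ∀ {a b : ℕ}, x ∈ mat s R a → x ∈ mat s R b → ¬ a < b := by
    intro a b ha hb hab
    have h1 : x ∈ unm s R (a + 1) := unm_anti hab hb.1
    exact h1.2 ha.2
  rcases lt_trichotomy n m with h | h | h
  · exact absurd h (key hn hm)
  · exact h
  · exact absurd h (key hm hn)

variable [StandardBorelSpace X]

theorem unm_meas (hs : ∀ n, Measurable (s n)) (hR : MeasurableSet R) (n : ℕ) :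
    MeasurableSet (unm s R n) := by
  induction n with
  | zero => exact hR
  | succ n ih =>
    exact ih.inter (((ih.preimage (hs n)).inter
      (measurableSet_eq_fun (hs n) measurable_id).compl).compl)

theorem mat_meas (hs : ∀ n, Measurable (s n)) (hR : MeasurableSet R) (n : ℕ) :
    MeasurableSet (mat s R n) :=
  (unm_meas hs hR n).inter (((unm_meas hs hR n).preimage (hs n)).inter
    (measurableSet_eq_fun (hs n) measurable_id).compl)

/-- the greedy matching -/
theorem exists_matching (hs : ∀ n, Measurable (s n)) (hi : ∀ n x, s n (s n x) = x)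
    (hR : MeasurableSet R) :
    ∃ σ : X → X, Measurable σ ∧ (∀ x, σ (σ x) = x) ∧ (∀ x ∈ R, σ x ∈ R) ∧
      (∀ x, σ x = x ∨ ∃ n, s n x = σ x) ∧
      ∀ x ∈ R, ∀ n, σ x = x → s n x ∈ R → σ (s n x) = s n x → s n x = x := by
  classical
  let σ : X → X := fun x => if h : ∃ n, x ∈ mat s R n then s h.choose x else x
  have h1 : ∀ x n, x ∈ mat s R n → σ x = s n x := by
    intro x n hx
    have h : ∃ n, x ∈ mat s R n := ⟨n, hx⟩
    have e : σ x = s h.choose x := dif_pos h
    rw [e, mat_unique h.choose_spec hx]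
  have h2 : ∀ x, (¬ ∃ n, x ∈ mat s R n) → σ x = x := fun x hx => dif_neg hx
  have h3 : ∀ x n, x ∈ mat s R n → s n x ∈ mat s R n := by
    intro x n hx
    refine ⟨hx.2.1, ?_, ?_⟩
    · rw [hi]
      exact hx.1
    · rw [hi]
      exact fun h => hx.2.2 h.symm
  refine ⟨σ, ?_, ?_, ?_, ?_, ?_⟩
  · intro C hC
    have e : σ ⁻¹' C = (⋃ n, (mat s R n ∩ s n ⁻¹' C)) ∪ ((⋃ n, mat s R n)ᶜ ∩ C) := by
      ext x
      simp only [mem_preimage, mem_union, mem_iUnion, mem_inter_iff, mem_compl_iff]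
      by_cases h : ∃ n, x ∈ mat s R n
      · obtain ⟨n, hn⟩ := h
        rw [h1 x n hn]
        constructor
        · intro hx
          exact Or.inl ⟨n, hn, hx⟩
        · rintro (⟨m, hm, hx⟩ | ⟨hx, _⟩)
          · rw [mat_unique hn hm]
            exact hx
          · exact absurd ⟨n, hn⟩ hx
      · rw [h2 x h]
        constructor
        · intro hx
          exact Or.inr ⟨h, hx⟩
        · rintro (⟨m, hm, hx⟩ | ⟨_, hx⟩)
          · exact absurd ⟨m, hm⟩ h
          · exact hx
    rw [e]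
    refine MeasurableSet.union (MeasurableSet.iUnion fun n => ?_) ?_
    · exact (mat_meas hs hR n).inter (hC.preimage (hs n))
    · exact (MeasurableSet.iUnion fun n => mat_meas hs hR n).compl.inter hC
  · intro x
    by_cases h : ∃ n, x ∈ mat s R n
    · obtain ⟨n, hn⟩ := h
      rw [h1 x n hn, h1 _ n (h3 x n hn), hi]
    · rw [h2 x h, h2 x h]
  · intro x hx
    by_cases h : ∃ n, x ∈ mat s R n
    · obtain ⟨n, hn⟩ := h
      rw [h1 x n hn]
      exact unm_anti (Nat.zero_le n) hn.2.1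
    · rw [h2 x h]
      exact hx
  · intro x
    by_cases h : ∃ n, x ∈ mat s R n
    · obtain ⟨n, hn⟩ := h
      exact Or.inr ⟨n, (h1 x n hn).symm⟩
    · exact Or.inl (h2 x h)
  · intro x hx n hσ hy hσy
    have key : ∀ z, z ∈ R → σ z = z → ∀ n, z ∈ unm s R n := by
      intro z hz hσz n
      induction n with
      | zero => exact hz
      | succ n ih =>
        refine ⟨ih, fun h => ?_⟩
        have hm : z ∈ mat s R n := ⟨ih, h⟩
        exact h.2 ((h1 z n hm).symm.trans hσz)
    by_contra hne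
    have hm : x ∈ mat s R n := ⟨key x hx hσ n, key _ hy hσy n, hne⟩
    exact hne ((h1 x n hm).symm.trans hσ)

end Match

/-- `g` is injective on each piece of a finite Borel partition of `R` -/
def FTO {X : Type} [MeasurableSpace X] (g : X → X) (R : Set X) : Prop :=
  ∃ (N : ℕ) (c : X → ℕ), Measurable c ∧ (∀ x, c x < N) ∧
    ∀ x ∈ R, ∀ y ∈ R, g x = g y → c x = c y → x = y

section FTO

variable {X : Type} [MeasurableSpace X]

theorem FTO.comp {g1 g2 : X → X} {R1 R2 : Set X} (h1 : FTO g1 R1) (hm : Measurable g1)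
    (hmap : ∀ x ∈ R1, g1 x ∈ R2) (h2 : FTO g2 R2) : FTO (g2 ∘ g1) R1 := by
  obtain ⟨N1, c1, hc1, hb1, hi1⟩ := h1
  obtain ⟨N2, c2, hc2, hb2, hi2⟩ := h2
  refine ⟨N1 * N2, fun x => c1 x * N2 + c2 (g1 x), ?_, ?_, ?_⟩
  · exact (hc1.mul_const N2).add (hc2.comp hm)
  · intro x
    have e1 := hb1 x
    have e2 := hb2 (g1 x)
    calc c1 x * N2 + c2 (g1 x) < c1 x * N2 + N2 := by omega
      _ = (c1 x + 1) * N2 := by ring
      _ ≤ N1 * N2 := Nat.mul_le_mul_right _ e1
  · intro x hx y hy hg hc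
    have e1 := hb2 (g1 x)
    have e2 := hb2 (g1 y)
    have hN : 0 < N2 := by omega
    have hc' : c1 x * N2 + c2 (g1 x) = c1 y * N2 + c2 (g1 y) := hc
    have e3 : c1 x = c1 y := by
      have := congrArg (fun t => t / N2) hc'
      simp only [mul_comm _ N2, Nat.mul_add_div hN, Nat.div_eq_of_lt e1,
        Nat.div_eq_of_lt e2, add_zero] at this
      exact this
    have e4 : c2 (g1 x) = c2 (g1 y) := by
      rw [e3] at hc'
      omega
    exact hi1 x hx y hy (hi2 _ (hmap x hx) _ (hmap y hy) hg e4) e3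

end FTO

section Halve

variable {X : Type} [MeasurableSpace X] [StandardBorelSpace X]
  {E : X → X → Prop} {s : ℕ → X → X}

/-- one step of the construction of the sections -/
theorem halve (hE : Equivalence E) (hs : ∀ n, Measurable (s n)) (hi : ∀ n x, s n (s n x) = x)
    (hsE : ∀ x y, E x y ↔ ∃ n, s n x = y) (R : Set X) (hR : MeasurableSet R)
    (hinf : ∀ x, {y | E x y ∧ y ∈ R}.Infinite) :
    ∃ R' : Set X, MeasurableSet R' ∧ (∀ x, {y | E x y ∧ y ∈ R'}.Infinite) ∧ R' ⊆ R ∧
      ∃ κ l : X → X, Measurable κ ∧ Measurable l ∧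
        (∀ x ∈ R, κ x ∈ R \ R' ∧ E x (κ x)) ∧ (∀ x ∈ R \ R', κ x = x) ∧ FTO κ R ∧
        (∀ x ∈ R, l x ∈ R' ∧ E x (l x)) ∧ (∀ y ∈ R', ∃ x ∈ R, l x = y) ∧ FTO l R := by
  classical
  obtain ⟨σ, hσm, hσσ, hσR, hσs, hσ1⟩ := exists_matching hs hi hR
  let e : X → ℝ := MeasureTheory.embeddingReal X
  have he : Measurable e := MeasureTheory.measurable_embeddingReal X
  have hei : Function.Injective e := (MeasureTheory.measurableEmbedding_embeddingReal X).injective
  have hEσ : ∀ x, E x (σ x) := by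
    intro x
    rcases hσs x with h | ⟨n, hn⟩
    · rw [h]
      exact hE.refl x
    · exact (hsE _ _).2 ⟨n, hn⟩
  -- the parts
  let C : Set X := {x | x ∈ R ∧ e x < e (σ x)}
  let D : Set X := {x | x ∈ R ∧ e (σ x) < e x}
  have hCm : MeasurableSet C := hR.inter (measurableSet_lt he (he.comp hσm))
  have hDm : MeasurableSet D := hR.inter (measurableSet_lt (he.comp hσm) he)
  have hCD : ∀ x ∈ C, σ x ∈ D := by
    intro x hx
    refine ⟨hσR x hx.1, ?_⟩
    rw [hσσ]
    exact hx.2
  have hDC : ∀ x ∈ D, σ x ∈ C := by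
    intro x hx
    refine ⟨hσR x hx.1, ?_⟩
    rw [hσσ]
    exact hx.2
  have hfix : ∀ x ∈ R, x ∉ C → x ∉ D → σ x = x := by
    intro x hx h1 h2
    rcases lt_trichotomy (e x) (e (σ x)) with h | h | h
    · exact absurd ⟨hx, h⟩ h1
    · exact (hei h).symm
    · exact absurd ⟨hx, h⟩ h2
  have hdisj : ∀ x, x ∈ C → x ∉ D := fun x h1 h2 => lt_asymm h1.2 h2.2
  -- at most one fixed point in each class
  have hU : ∀ x ∈ R, ∀ y ∈ R, σ x = x → σ y = y → E x y → x = y := by
    intro x hx y hy h1 h2 h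
    obtain ⟨n, rfl⟩ := (hsE _ _).1 h
    exact (hσ1 x hx n h1 hy h2).symm
  have hDinf : ∀ x, {y | E x y ∧ y ∈ D}.Infinite := by
    intro x hfin
    apply hinf x
    have h1 : {y | E x y ∧ y ∈ C}.Finite := by
      refine (hfin.image σ).subset ?_
      rintro y ⟨hy1, hy2⟩
      exact ⟨σ y, ⟨hE.trans hy1 (hEσ y), hCD y hy2⟩, hσσ y⟩
    have h2 : {y | E x y ∧ y ∈ R ∧ σ y = y}.Finite := by
      refine Set.Subsingleton.finite ?_
      rintro y ⟨hy1, hy2, hy3⟩ z ⟨hz1, hz2, hz3⟩
      exact hU y hy2 z hz2 hy3 hz3 (hE.trans (hE.symm hy1) hz1)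
    refine ((hfin.union h1).union h2).subset ?_
    rintro y ⟨hy1, hy2⟩
    by_cases hC : y ∈ C
    · exact Or.inl (Or.inr ⟨hy1, hC⟩)
    · by_cases hD : y ∈ D
      · exact Or.inl (Or.inl ⟨hy1, hD⟩)
      · exact Or.inr ⟨hy1, hy2, hfix y hy2 hC hD⟩
  have hCex : ∀ x, ∃ n, s n x ∈ C := by
    intro x
    obtain ⟨y, hy1, hy2⟩ := (hDinf x).nonempty
    obtain ⟨n, hn⟩ := (hsE x (σ y)).1 (hE.trans hy1 (hEσ y))
    exact ⟨n, hn ▸ hDC y hy2⟩
  -- the first point of `C`
  let f : X → X := fun x => s (Nat.find (hCex x)) x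
  have hfC : ∀ x, f x ∈ C := fun x => Nat.find_spec (hCex x)
  have hEf : ∀ x, E x (f x) := fun x => (hsE _ _).2 ⟨_, rfl⟩
  have hfm : Measurable f := by
    have hk : Measurable fun x => Nat.find (hCex x) :=
      measurable_find (p := fun x n => s n x ∈ C) hCex fun n => hCm.preimage (hs n)
    intro S hS
    have h1 : f ⁻¹' S = ⋃ n, ((fun x => Nat.find (hCex x)) ⁻¹' {n} ∩ s n ⁻¹' S) := by
      ext x
      simp only [mem_preimage, mem_iUnion, mem_inter_iff, mem_singleton_iff]
      constructor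
      · intro h
        exact ⟨_, rfl, h⟩
      · rintro ⟨n, rfl, h⟩
        exact h
    rw [h1]
    exact MeasurableSet.iUnion fun n => (hk (measurableSet_singleton n)).inter (hs n hS)
  let κ : X → X := fun x => if x ∈ D then σ x else x
  let t : X → X := fun x => if x ∈ C then σ x else σ (f x)
  have hκm : Measurable κ := Measurable.ite hDm hσm measurable_id
  have htm : Measurable t := Measurable.ite hCm hσm (hσm.comp hfm)
  have hκR : ∀ x ∈ R, κ x ∈ R \ D := by
    intro x hx
    by_cases h : x ∈ D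
    · simp only [κ, if_pos h]
      exact ⟨hσR x hx, hdisj _ (hDC x h)⟩
    · simp only [κ, if_neg h]
      exact ⟨hx, h⟩
  have hκE : ∀ x, E x (κ x) := by
    intro x
    by_cases h : x ∈ D
    · simp only [κ, if_pos h]
      exact hEσ x
    · simp only [κ, if_neg h]
      exact hE.refl x
  have hκid : ∀ x ∈ R \ D, κ x = x := fun x hx => if_neg hx.2
  have htD : ∀ x, t x ∈ D := by
    intro x
    by_cases h : x ∈ C
    · simp only [t, if_pos h]
      exact hCD x h
    · simp only [t, if_neg h]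
      exact hCD _ (hfC x)
  have htE : ∀ x, E x (t x) := by
    intro x
    by_cases h : x ∈ C
    · simp only [t, if_pos h]
      exact hEσ x
    · simp only [t, if_neg h]
      exact hE.trans (hEf x) (hEσ _)
  have hκF : FTO κ R := by
    refine ⟨2, fun x => if x ∈ D then 1 else 0, Measurable.ite hDm measurable_const
      measurable_const, ?_, ?_⟩
    · intro x
      simp only
      split_ifs <;> omega
    · intro x hx y hy h1 h2
      by_cases hx' : x ∈ D <;> by_cases hy' : y ∈ D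
      · simp only [κ, if_pos hx', if_pos hy'] at h1
        rw [← hσσ x, h1, hσσ]
      · simp [hx', hy'] at h2
      · simp [hx', hy'] at h2
      · simp only [κ, if_neg hx', if_neg hy'] at h1
        exact h1
  have htF : FTO t (R \ D) := by
    refine ⟨2, fun x => if x ∈ C then 1 else 0, Measurable.ite hCm measurable_const
      measurable_const, ?_, ?_⟩
    · intro x
      simp only
      split_ifs <;> omega
    · intro x hx y hy h1 h2
      by_cases hx' : x ∈ C <;> by_cases hy' : y ∈ C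
      · simp only [t, if_pos hx', if_pos hy'] at h1
        rw [← hσσ x, h1, hσσ]
      · simp [hx', hy'] at h2
      · simp [hx', hy'] at h2
      · refine hU x hx.1 y hy.1 (hfix x hx.1 hx' hx.2) (hfix y hy.1 hy' hy.2) ?_
        exact hE.trans (htE x) (h1 ▸ hE.symm (htE y))
  refine ⟨D, hDm, hDinf, fun x hx => hx.1, κ, t ∘ κ, hκm, htm.comp hκm,
    fun x hx => ⟨hκR x hx, hκE x⟩, hκid, hκF, fun x hx => ⟨htD _, hE.trans (hκE x) (htE _)⟩, ?_,
    hκF.comp hκm hκR htF⟩
  intro y hy
  have h1 : σ y ∈ C := hDC y hy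
  refine ⟨σ y, h1.1, ?_⟩
  show t (κ (σ y)) = y
  rw [hκid (σ y) ⟨h1.1, hdisj _ h1⟩]
  simp only [t, if_pos h1]
  exact hσσ y

/-- **Sections.** -/
theorem exists_sections (hE : Equivalence E) (hs : ∀ n, Measurable (s n))
    (hi : ∀ n x, s n (s n x) = x) (hsE : ∀ x y, E x y ↔ ∃ n, s n x = y)
    (hinf : ∀ x, {y | E x y}.Infinite) :
    ∃ (ι : X → ℕ) (q : ℕ → X → X), Measurable ι ∧ (∀ i, Measurable (q i)) ∧
      (∀ i x, ι (q i x) = i) ∧ (∀ i x, E x (q i x)) ∧ (∀ x, ∃ x', q (ι x) x' = x) ∧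
      ∀ i, FTO (q i) univ := by
  classical
  let Sub : Type := {R : Set X // MeasurableSet R ∧ ∀ x, {y | E x y ∧ y ∈ R}.Infinite}
  have H : ∀ R : Sub, ∃ R' : Sub, R'.1 ⊆ R.1 ∧ ∃ κ l : X → X, Measurable κ ∧ Measurable l ∧
      (∀ x ∈ R.1, κ x ∈ R.1 \ R'.1 ∧ E x (κ x)) ∧ (∀ x ∈ R.1 \ R'.1, κ x = x) ∧ FTO κ R.1 ∧
      (∀ x ∈ R.1, l x ∈ R'.1 ∧ E x (l x)) ∧ (∀ y ∈ R'.1, ∃ x ∈ R.1, l x = y) ∧ FTO l R.1 := by
    intro R
    obtain ⟨R', h1, h2, h3, h4⟩ := halve hE hs hi hsE R.1 R.2.1 R.2.2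
    exact ⟨⟨R', h1, h2⟩, h3, h4⟩
  choose nx hnx κ l hκm hlm hκ hκid hκF hl hls hlF using H
  let R : ℕ → Sub := fun n => Nat.rec ⟨univ, MeasurableSet.univ, fun x => by simpa using hinf x⟩
    (fun _ r => nx r) n
  have R0 : (R 0).1 = univ := rfl
  have RS : ∀ n, R (n + 1) = nx (R n) := fun n => rfl
  let ρ : ℕ → X → X := fun n => Nat.rec id (fun k r => l (R k) ∘ r) n
  have ρ0 : ρ 0 = id := rfl
  have ρS : ∀ n, ρ (n + 1) = l (R n) ∘ ρ n := fun n => rfl
  have hρ : ∀ n, Measurable (ρ n) ∧ (∀ x, ρ n x ∈ (R n).1 ∧ E x (ρ n x)) ∧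
      (∀ y ∈ (R n).1, ∃ x, ρ n x = y) ∧ FTO (ρ n) univ := by
    intro n
    induction n with
    | zero =>
      refine ⟨measurable_id, fun x => ⟨mem_univ _, hE.refl _⟩, fun y _ => ⟨y, rfl⟩, 1, fun _ => 0,
        measurable_const, fun _ => Nat.zero_lt_one, fun x _ y _ h _ => h⟩
    | succ n ih =>
      obtain ⟨h1, h2, h3, h4⟩ := ih
      refine ⟨(hlm (R n)).comp h1, fun x => ⟨(hl _ _ (h2 x).1).1,
        hE.trans (h2 x).2 (hl _ _ (h2 x).1).2⟩, ?_, h4.comp h1 (fun x _ => (h2 x).1) (hlF _)⟩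
      intro y hy
      obtain ⟨z, hz, rfl⟩ := hls (R n) y hy
      obtain ⟨x, rfl⟩ := h3 z hz
      exact ⟨x, rfl⟩
  have hRanti : ∀ n m, n ≤ m → (R m).1 ⊆ (R n).1 := by
    intro n m h
    induction h with
    | refl => exact Subset.rfl
    | step h ih => exact (hnx _).trans ih
  let ι : X → ℕ := fun x => if h : ∃ i, x ∉ (R (i + 1)).1 then Nat.find h else 0
  have hι : ∀ x i, x ∈ (R i).1 → x ∉ (R (i + 1)).1 → ι x = i := by
    intro x i h1 h2
    have h : ∃ i, x ∉ (R (i + 1)).1 := ⟨i, h2⟩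
    have e : ι x = Nat.find h := dif_pos h
    rw [e, Nat.find_eq_iff]
    refine ⟨h2, fun n hn h3 => h3 (hRanti _ _ hn h1)⟩
  have hι0 : ∀ x, (∀ i, x ∈ (R (i + 1)).1) → ι x = 0 := by
    intro x h
    refine dif_neg ?_
    push Not
    exact h
  have hι' : ∀ x, (¬ ∀ i, x ∈ (R (i + 1)).1) → x ∈ (R (ι x)).1 ∧ x ∉ (R (ι x + 1)).1 := by
    intro x h
    push Not at h
    have e : ι x = Nat.find h := dif_pos h
    refine ⟨?_, by rw [e]; exact Nat.find_spec h⟩
    rw [e]
    rcases Nat.eq_zero_or_pos (Nat.find h) with h0 | h0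
    · rw [h0]
      exact mem_univ _
    · obtain ⟨m, hm⟩ : ∃ m, Nat.find h = m + 1 := ⟨Nat.find h - 1, by omega⟩
      have := Nat.find_min h (m := m) (by omega)
      rw [hm]
      push Not at this
      exact this
  let Q : Set X := {x | ∀ i, x ∈ (R (i + 1)).1}
  have hQm : MeasurableSet Q := by
    have : Q = ⋂ i, (R (i + 1)).1 := by
      ext x
      simp [Q]
    rw [this]
    exact MeasurableSet.iInter fun i => (R (i + 1)).2.1
  have hιm : Measurable ι := by
    refine measurable_to_countable' fun i => ?_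
    have e : ι ⁻¹' {i} = ((R i).1 \ (R (i + 1)).1) ∪ (if i = 0 then Q else ∅) := by
      ext x
      constructor
      · intro hx
        have hx : ι x = i := hx
        by_cases h : x ∈ Q
        · right
          rw [← hx, if_pos (hι0 x h)]
          exact h
        · left
          have := hι' x h
          rw [hx] at this
          exact this
      · rintro (⟨h1, h2⟩ | h)
        · exact hι x i h1 h2
        · by_cases h0 : i = 0
          · rw [if_pos h0] at h
            show ι x = i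
            rw [hι0 x h, h0]
          · rw [if_neg h0] at h
            exact absurd h (notMem_empty _)
    rw [e]
    refine ((R i).2.1.diff (R (i + 1)).2.1).union ?_
    split_ifs
    · exact hQm
    · exact MeasurableSet.empty
  let q : ℕ → X → X := fun i x => if i = 0 ∧ x ∈ Q then x else κ (R i) (ρ i x)
  have hq1 : ∀ i x, ¬ (i = 0 ∧ x ∈ Q) → q i x = κ (R i) (ρ i x) := fun i x h => if_neg h
  have hq2 : ∀ x, x ∈ Q → q 0 x = x := fun x h => if_pos ⟨rfl, h⟩
  have hκρ : ∀ i x, κ (R i) (ρ i x) ∈ (R i).1 \ (R (i + 1)).1 ∧ E x (κ (R i) (ρ i x)) := by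
    intro i x
    have h1 := (hρ i).2.1 x
    have h2 := hκ (R i) _ h1.1
    exact ⟨h2.1, hE.trans h1.2 h2.2⟩
  refine ⟨ι, q, hιm, ?_, ?_, ?_, ?_, ?_⟩
  · intro i
    have h1 : Measurable fun x => κ (R i) (ρ i x) := (hκm _).comp (hρ i).1
    by_cases h0 : i = 0
    · have e : q i = fun x => if x ∈ Q then x else κ (R i) (ρ i x) := by
        funext x
        simp only [q, h0, true_and]
      rw [e]
      exact Measurable.ite hQm measurable_id h1
    · have e : q i = fun x => κ (R i) (ρ i x) := by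
        funext x
        exact hq1 i x fun h => h0 h.1
      rw [e]
      exact h1
  · intro i x
    by_cases h : i = 0 ∧ x ∈ Q
    · obtain ⟨rfl, h⟩ := h
      rw [hq2 x h]
      exact hι0 x h
    · rw [hq1 i x h]
      exact hι _ _ (hκρ i x).1.1 (hκρ i x).1.2
  · intro i x
    by_cases h : i = 0 ∧ x ∈ Q
    · obtain ⟨rfl, h⟩ := h
      rw [hq2 x h]
      exact hE.refl x
    · rw [hq1 i x h]
      exact (hκρ i x).2
  · intro x
    by_cases h : x ∈ Q
    · refine ⟨x, ?_⟩
      rw [hι0 x h]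
      exact hq2 x h
    · obtain ⟨h1, h2⟩ := hι' x h
      by_cases h0 : ι x = 0
      · refine ⟨x, ?_⟩
        rw [hq1 _ _ fun hh => h hh.2]
        have e : ρ (ι x) x = x := by rw [h0]; rfl
        rw [e]
        exact hκid _ _ ⟨h1, h2⟩
      · obtain ⟨z, hz⟩ := (hρ (ι x)).2.2.1 x h1
        refine ⟨z, ?_⟩
        rw [hq1 _ _ fun hh => h0 hh.1, hz]
        exact hκid _ _ ⟨h1, h2⟩
  · intro i
    have h1 : FTO (fun x => κ (R i) (ρ i x)) univ :=
      (hρ i).2.2.2.comp (hρ i).1 (fun x _ => ((hρ i).2.1 x).1) (hκF (R i))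
    obtain ⟨N, c, hc, hb, hcc⟩ := h1
    refine ⟨N + 1, fun x => if i = 0 ∧ x ∈ Q then N else c x, ?_, ?_, ?_⟩
    · by_cases h0 : i = 0
      · simp only [h0, true_and]
        exact Measurable.ite hQm measurable_const hc
      · simp only [h0, false_and, if_false]
        exact hc
    · intro x
      have := hb x
      simp only
      split_ifs <;> omega
    · intro x _ y _ h1 h2
      by_cases hx : i = 0 ∧ x ∈ Q <;> by_cases hy : i = 0 ∧ y ∈ Q
      · obtain ⟨rfl, hx⟩ := hx
        rw [hq2 x hx, hq2 y hy.2] at h1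
        exact h1
      · exfalso
        simp only [if_pos hx, if_neg hy] at h2
        have := hb y
        omega
      · exfalso
        simp only [if_neg hx, if_pos hy] at h2
        have := hb x
        omega
      · rw [hq1 _ _ hx, hq1 _ _ hy] at h1
        simp only [if_neg hx, if_neg hy] at h2
        exact hcc x (mem_univ _) y (mem_univ _) h1 h2

end Halve

end Pool.Agent.T2h30.KS
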