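import Mathlib
import Pool.Agent.H139R3.MF.Top

set_option autoImplicit false

/-!
# Zero-dimensional refinements and compactifications with countable remainder
-/

namespace Pool.Agent.T2h30.KS

open Set TopologicalSpace Filter
open scoped Topology

theorem one_step {X H : Type} [t : TopologicalSpace X] [PolishSpace X] [MeasurableSpace X]
    [BorelSpace X] (g : ℕ → X → X) (hg : ∀ n, Measurable (g n)) [TopologicalSpace H]
    [SecondCountableTopology H] [MeasurableSpace H] [OpensMeasurableSpace H] (h : X → H)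
    (hh : Measurable h) :
    ∃ t' : TopologicalSpace X, t' ≤ t ∧ @PolishSpace X t' ∧ (∀ n, @Continuous X X t' t (g n)) ∧
      @Continuous X H t' _ h ∧
      ∀ (x : X) (U : Set X), IsOpen[t] U → x ∈ U → ∃ V, @IsClopen X t' V ∧ x ∈ V ∧ V ⊆ U := by
  classical
  obtain ⟨b, hbc, hb⟩ : ∃ b : ℕ → Set X, (∀ n, IsOpen (b n)) ∧
      ∀ x U, IsOpen U → x ∈ U → ∃ n, x ∈ b n ∧ b n ⊆ U := by
    obtain ⟨B, hB1, -, hB2⟩ := exists_countable_basis X
    rcases B.eq_empty_or_nonempty with hB | hB
    · refine ⟨fun _ => ∅, fun _ => isOpen_empty, fun x U hU hx => ?_⟩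
      obtain ⟨V, hV, -, -⟩ := hB2.exists_subset_of_mem_open hx hU
      rw [hB] at hV
      exact absurd hV (notMem_empty _)
    · obtain ⟨b, rfl⟩ := hB1.exists_eq_range hB
      refine ⟨b, fun n => hB2.isOpen (mem_range_self n), fun x U hU hx => ?_⟩
      obtain ⟨V, ⟨n, rfl⟩, h1, h2⟩ := hB2.exists_subset_of_mem_open hx hU
      exact ⟨n, h1, h2⟩
  let h' : X → H × (ℕ → Bool) := fun x => (h x, fun n => decide (x ∈ b n))
  have hh' : Measurable h' := by
    refine hh.prodMk (measurable_pi_lambda _ fun n => ?_)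
    refine measurable_to_bool ?_
    have : (fun x => decide (x ∈ b n)) ⁻¹' {true} = b n := by
      ext x
      simp
    rw [this]
    exact (hbc n).measurableSet
  obtain ⟨t', h1, h2, h3, h4⟩ := Pool.Agent.H139R3.MF.step g hg h' hh' t le_rfl inferInstance
  refine ⟨t', h1, h2, h3, ?_, ?_⟩
  · exact @Continuous.comp X (H × (ℕ → Bool)) H t' _ _ h' Prod.fst continuous_fst h4
  · intro x U hU hx
    obtain ⟨n, hn1, hn2⟩ := hb x U hU hx
    refine ⟨b n, ?_, hn1, hn2⟩
    have e1 : @Continuous X (ℕ → Bool) t' _ (fun x => fun n => decide (x ∈ b n)) :=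
      @Continuous.comp X (H × (ℕ → Bool)) (ℕ → Bool) t' _ _ h' Prod.snd continuous_snd h4
    have e2 : @Continuous X Bool t' _ (fun x => decide (x ∈ b n)) :=
      @Continuous.comp X (ℕ → Bool) Bool t' _ _ (fun x => fun n => decide (x ∈ b n))
        (fun f => f n) (continuous_apply n) e1
    have e3 : (fun x => decide (x ∈ b n)) ⁻¹' {true} = b n := by
      ext x
      simp
    rw [← e3]
    exact @IsClopen.preimage X Bool t' _ _ (isClopen_discrete _) _ e2

/-- A Polish topology can be refined to a zero-dimensional Polish topology for which countably many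
Borel self maps and one Borel map to a second countable space are continuous. -/
theorem exists_zd {X H : Type} [t0 : TopologicalSpace X] [p0 : PolishSpace X] [MeasurableSpace X]
    [b0 : BorelSpace X] (g : ℕ → X → X) (hg : ∀ n, Measurable (g n)) [TopologicalSpace H]
    [SecondCountableTopology H] [MeasurableSpace H] [OpensMeasurableSpace H] (h : X → H)
    (hh : Measurable h) :
    ∃ t : TopologicalSpace X, @PolishSpace X t ∧ @BorelSpace X t _ ∧
      (∀ n, @Continuous X X t t (g n)) ∧ @Continuous X H t _ h ∧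
      ∀ (x : X) (U : Set X), IsOpen[t] U → x ∈ U → ∃ V, @IsClopen X t V ∧ x ∈ V ∧ V ⊆ U := by
  classical
  have H0 : ∀ t : {t : TopologicalSpace X // t ≤ t0 ∧ @PolishSpace X t},
      ∃ t' : {t : TopologicalSpace X // t ≤ t0 ∧ @PolishSpace X t}, t'.1 ≤ t.1 ∧
        (∀ n, @Continuous X X t'.1 t.1 (g n)) ∧ @Continuous X H t'.1 _ h ∧
        ∀ (x : X) (U : Set X), IsOpen[t.1] U → x ∈ U → ∃ V, @IsClopen X t'.1 V ∧ x ∈ V ∧ V ⊆ U := by
    rintro ⟨t, ht, hp⟩
    have hb : @BorelSpace X t _ := by
      constructor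
      rw [b0.measurable_eq]
      exact (MeasureTheory.borel_eq_borel_of_le hp p0 ht).symm
    obtain ⟨t', h1, h2, h3, h4, h5⟩ := @one_step X H t hp _ hb g hg _ _ _ _ h hh
    exact ⟨⟨t', h1.trans ht, h2⟩, h1, h3, h4, h5⟩
  choose F hF1 hF2 hF3 hF4 using H0
  let T : ℕ → {t : TopologicalSpace X // t ≤ t0 ∧ @PolishSpace X t} := fun n =>
    Nat.rec ⟨t0, le_rfl, p0⟩ (fun _ s => F s) n
  have TS : ∀ n, T (n + 1) = F (T n) := fun n => rfl
  have hle : (⨅ n, (T n).1) ≤ t0 := iInf_le_of_le 0 le_rfl
  have hp : @PolishSpace X (⨅ n, (T n).1) := by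
    refine PolishSpace.iInf ⟨0, fun i => (T i).2.1⟩ (fun i => (T i).2.2)
  have hanti : Antitone fun n => (T n).1 := antitone_nat_of_succ_le fun n => by
    rw [TS]
    exact hF1 _
  refine ⟨⨅ n, (T n).1, hp, ?_, ?_, ?_, ?_⟩
  · refine @BorelSpace.mk X (⨅ n, (T n).1) _ ?_
    exact b0.measurable_eq.trans (MeasureTheory.borel_eq_borel_of_le hp p0 hle).symm
  · intro n
    rw [continuous_iInf_rng]
    intro k
    have e1 : @Continuous X X (T (k + 1)).1 (T k).1 (g n) := by
      rw [TS]
      exact hF2 _ n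
    exact continuous_iInf_dom (i := k + 1) e1
  · have e1 : @Continuous X H (T (0 + 1)).1 _ h := by
      rw [TS]
      exact hF3 _
    exact continuous_iInf_dom (i := 0 + 1) e1
  · intro x U hU hx
    have h1 : U ∈ @nhds X (⨅ n, (T n).1) x := @IsOpen.mem_nhds X (⨅ n, (T n).1) x U hU hx
    rw [nhds_iInf] at h1
    have hdir : Directed (· ≥ ·) fun n => @nhds X (T n).1 x := by
      refine Antitone.directed_ge fun n m hnm => ?_
      exact nhds_mono (hanti hnm)
    obtain ⟨n, hn⟩ := (mem_iInf_of_directed hdir _).1 h1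
    obtain ⟨W, hW1, hW2, hW3⟩ := (@mem_nhds_iff X (T n).1 x U).1 hn
    obtain ⟨V, hV1, hV2, hV3⟩ := hF4 (T n) x W hW2 hW3
    refine ⟨V, ?_, hV2, hV3.trans hW1⟩
    have e : (⨅ n, (T n).1) ≤ (F (T n)).1 := by
      rw [← TS]
      exact iInf_le (fun n => (T n).1) (n + 1)
    have h3 : IsOpen[(F (T n)).1] V := hV1.2
    have h4 : IsOpen[(F (T n)).1] Vᶜ := @IsClosed.isOpen_compl X (F (T n)).1 V hV1.1
    exact ⟨@IsClosed.mk X (⨅ n, (T n).1) V (e _ h4), e _ h3⟩

/-- Codes: a zero-dimensional Polish space has locally constant maps `c k` to `ℕ`, such that an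
ultrafilter along which all of them are eventually constant converges. -/
theorem exists_codes {X : Type} [TopologicalSpace X] [PolishSpace X]
    (hzd : ∀ (x : X) (U : Set X), IsOpen U → x ∈ U → ∃ V, IsClopen V ∧ x ∈ V ∧ V ⊆ U) :
    ∃ c : ℕ → X → ℕ, (∀ k, Continuous (c k)) ∧ (∀ x y, (∀ k, c k x = c k y) → x = y) ∧
      (∀ k x y, c (k + 1) x = c (k + 1) y → c k x = c k y) ∧
      ∀ F : Ultrafilter X, (∀ k, ∃ j, ∀ᶠ x in (F : Filter X), c k x = j) →
        ∃ x, (F : Filter X) ≤ 𝓝 x := by
  classical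
  let := upgradeIsCompletelyMetrizable X
  rcases isEmpty_or_nonempty X with hX | hX
  · refine ⟨fun _ _ => 0, fun k => continuous_const, fun x => hX.elim x, fun k x => hX.elim x,
      fun F _ => ?_⟩
    obtain ⟨x⟩ := F.neBot.nonempty
    exact hX.elim x
  have H : ∀ k : ℕ, ∃ a : X → ℕ, Continuous a ∧ ∀ j x y, a x = j → a y = j →
      dist x y < 2 * (1 / 2 : ℝ) ^ k := by
    intro k
    have hpos : (0 : ℝ) < (1 / 2 : ℝ) ^ k := by positivity
    choose V hV1 hV2 hV3 using fun x : X => hzd x (Metric.ball x ((1 / 2 : ℝ) ^ k))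
      Metric.isOpen_ball (Metric.mem_ball_self hpos)
    obtain ⟨S, hS1, hS2⟩ := countable_cover_nhds (f := V) fun x => (hV1 x).2.mem_nhds (hV2 x)
    have hSne : S.Nonempty := by
      by_contra hcon
      rw [not_nonempty_iff_eq_empty] at hcon
      rw [hcon, biUnion_empty] at hS2
      exact absurd (mem_univ hX.some) (hS2 ▸ notMem_empty _)
    obtain ⟨e, rfl⟩ := hS1.exists_eq_range hSne
    have hex : ∀ x, ∃ n, x ∈ V (e n) := by
      intro x
      have : x ∈ ⋃ y ∈ range e, V y := hS2 ▸ mem_univ x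
      simp only [mem_iUnion, mem_range] at this
      obtain ⟨y, ⟨n, rfl⟩, hx⟩ := this
      exact ⟨n, hx⟩
    refine ⟨fun x => Nat.find (hex x), ?_, ?_⟩
    · rw [continuous_discrete_rng]
      intro n
      have e1 : (fun x => Nat.find (hex x)) ⁻¹' {n} = V (e n) ∩ ⋂ m : Fin n, (V (e m))ᶜ := by
        ext x
        simp only [mem_preimage, mem_singleton_iff, Nat.find_eq_iff, mem_inter_iff, mem_iInter,
          mem_compl_iff]
        constructor
        · rintro ⟨h1, h2⟩
          exact ⟨h1, fun m => h2 m m.2⟩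
        · rintro ⟨h1, h2⟩
          exact ⟨h1, fun m hm => h2 ⟨m, hm⟩⟩
      rw [e1]
      exact (hV1 _).2.inter (isOpen_iInter_of_finite fun m => (hV1 _).1.isOpen_compl)
    · intro j x y hx hy
      have h1 : x ∈ V (e j) := hx ▸ Nat.find_spec (hex x)
      have h2 : y ∈ V (e j) := hy ▸ Nat.find_spec (hex y)
      have h3 := Metric.mem_ball.1 (hV3 _ h1)
      have h4 := Metric.mem_ball.1 (hV3 _ h2)
      calc dist x y ≤ dist x (e j) + dist y (e j) := dist_triangle_right _ _ _
        _ < 2 * (1 / 2 : ℝ) ^ k := by linarith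
  choose a ha1 ha2 using H
  let c : ℕ → X → ℕ := fun k => Nat.rec (a 0) (fun k r x => Nat.pair (r x) (a (k + 1) x)) k
  have c0 : c 0 = a 0 := rfl
  have cS : ∀ k x, c (k + 1) x = Nat.pair (c k x) (a (k + 1) x) := fun k x => rfl
  have hca : ∀ k x y, c k x = c k y → a k x = a k y := by
    intro k x y h
    cases k with
    | zero => exact h
    | succ k =>
      rw [cS, cS] at h
      exact (Nat.pair_eq_pair.1 h).2
  have hlim : Tendsto (fun k : ℕ => 2 * (1 / 2 : ℝ) ^ k) atTop (𝓝 0) := by
    have := (tendsto_pow_atTop_nhds_zero_of_lt_one (r := (1 / 2 : ℝ)) (by norm_num)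
      (by norm_num)).const_mul 2
    simpa using this
  refine ⟨c, ?_, ?_, ?_, ?_⟩
  · intro k
    induction k with
    | zero => exact ha1 0
    | succ k ih =>
      have : c (k + 1) = (fun p : ℕ × ℕ => Nat.pair p.1 p.2) ∘ fun x => (c k x, a (k + 1) x) := by
        funext x
        exact cS k x
      rw [this]
      exact (continuous_of_discreteTopology).comp (ih.prodMk (ha1 _))
  · intro x y h
    have h1 : dist x y ≤ 0 := by
      refine ge_of_tendsto' hlim fun k => ?_
      exact (ha2 k _ x y rfl (hca k x y (h k)).symm).le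
    exact dist_le_zero.1 h1
  · intro k x y h
    rw [cS, cS] at h
    exact (Nat.pair_eq_pair.1 h).1
  · intro F hF
    have hC : Cauchy (F : Filter X) := by
      rw [Metric.cauchy_iff]
      refine ⟨F.neBot, fun ε hε => ?_⟩
      obtain ⟨k, hk⟩ := (hlim.eventually (gt_mem_nhds hε)).exists
      obtain ⟨j, hj⟩ := hF k
      obtain ⟨z, hz⟩ := hj.exists
      refine ⟨_, hj, fun x hx y hy => (ha2 k (a k z) x y ?_ ?_).trans hk⟩
      · exact hca k x z (hx.trans hz.symm)
      · exact hca k y z (hy.trans hz.symm)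
    exact CompleteSpace.complete hC

/-- The ambient compact space. -/
abbrev KK : Type := ℕ × ℕ → Bool

/-- The countable remainder. -/
def Rem : Set KK := {χ | {p | χ p = true}.Finite}

theorem rem_countable : Rem.Countable := by
  classical
  have h : Rem ⊆ range fun s : Finset (ℕ × ℕ) => fun p => decide (p ∈ s) := by
    intro χ hχ
    refine ⟨hχ.toFinset, ?_⟩
    funext p
    have h1 : p ∈ hχ.toFinset ↔ χ p = true := hχ.mem_toFinset
    by_cases h : χ p = true
    · simp only [h1, h, decide_true]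
    · simp only [h1, h]
      rw [Bool.not_eq_true] at h
      simp
  exact (countable_range _).mono h

/-- **Compactification.** A zero-dimensional Polish space embeds into `KK` with closure contained in
the union of the image and the countable set `Rem`. -/
theorem exists_compactification {X : Type} [TopologicalSpace X] [PolishSpace X]
    (hzd : ∀ (x : X) (U : Set X), IsOpen U → x ∈ U → ∃ V, IsClopen V ∧ x ∈ V ∧ V ⊆ U) :
    ∃ φ : X → KK, Continuous φ ∧ Function.Injective φ ∧ (∀ x, φ x ∉ Rem) ∧
      ∀ (F : Ultrafilter X) (χ : KK), Tendsto φ F (𝓝 χ) →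
        (∃ x, (F : Filter X) ≤ 𝓝 x ∧ φ x = χ) ∨
        (χ ∈ Rem ∧ ¬ ∃ x, (F : Filter X) ≤ 𝓝 x) := by
  classical
  obtain ⟨c, hc1, hc2, hc3, hc4⟩ := exists_codes hzd
  let φ : X → KK := fun x p => decide (c p.1 x = p.2)
  have hφ : ∀ x p, φ x p = true ↔ c p.1 x = p.2 := fun x p => by simp [φ]
  have hφc : Continuous φ := by
    refine continuous_pi fun p => ?_
    exact (continuous_of_discreteTopology (f := fun n : ℕ => decide (n = p.2))).comp (hc1 p.1)
  have hφR : ∀ x, φ x ∉ Rem := by
    intro x h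
    have h1 : (univ : Set ℕ).Finite := by
      refine (h.image Prod.fst).subset ?_
      intro k _
      exact ⟨(k, c k x), (hφ x (k, c k x)).2 rfl, rfl⟩
    exact infinite_univ h1
  refine ⟨φ, hφc, ?_, hφR, ?_⟩
  · intro x y h
    refine hc2 x y fun k => ?_
    have h1 := (hφ x (k, c k x)).2 rfl
    rw [h] at h1
    exact ((hφ y _).1 h1).symm
  · intro F χ hF
    by_cases hconv : ∃ x, (F : Filter X) ≤ 𝓝 x
    · obtain ⟨x, hx⟩ := hconv
      refine Or.inl ⟨x, hx, ?_⟩
      exact tendsto_nhds_unique ((hφc.tendsto x).mono_left hx) hF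
    · refine Or.inr ⟨?_, hconv⟩
      have hev : ∀ p, ∀ᶠ x in (F : Filter X), φ x p = χ p := by
        intro p
        have h1 : Tendsto (fun x => φ x p) F (𝓝 (χ p)) := (tendsto_pi_nhds.1 hF) p
        rw [nhds_discrete, tendsto_pure] at h1
        exact h1
      -- some row is empty
      obtain ⟨k, hk⟩ : ∃ k, ∀ j, χ (k, j) = false := by
        by_contra hcon
        push Not at hcon
        apply hconv
        refine hc4 F fun k => ?_
        obtain ⟨j, hj⟩ := hcon k
        refine ⟨j, ?_⟩
        filter_upwards [hev (k, j)] with x hx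
        replace hj : χ (k, j) = true := by simpa using hj
        rw [hj] at hx
        exact (hφ x (k, j)).1 hx
      have hk' : ∀ m, k ≤ m → ∀ j, χ (m, j) = false := by
        intro m hm
        induction m, hm using Nat.le_induction with
        | base => exact hk
        | succ m hm ih =>
          intro j
          by_contra hcon
          rw [Bool.not_eq_false] at hcon
          have h1 := hev (m + 1, j)
          obtain ⟨z, hz⟩ := h1.exists
          have h2 : ∀ᶠ x in (F : Filter X), c m x = c m z := by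
            filter_upwards [h1] with x hx
            rw [hcon] at hx hz
            exact hc3 m x z (((hφ x _).1 hx).trans ((hφ z _).1 hz).symm)
          obtain ⟨x, hx1, hx2⟩ := (h2.and (hev (m, c m z))).exists
          rw [ih] at hx2
          have h3 := (hφ x (m, c m z)).2 hx1
          rw [hx2] at h3
          exact absurd h3 (by simp)
      have huniq : ∀ m j j', χ (m, j) = true → χ (m, j') = true → j = j' := by
        intro m j j' h h'
        obtain ⟨x, hx1, hx2⟩ := ((hev (m, j)).and (hev (m, j'))).exists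
        rw [h] at hx1
        rw [h'] at hx2
        exact ((hφ x _).1 hx1).symm.trans ((hφ x _).1 hx2)
      have hfin : {p : ℕ × ℕ | χ p = true} ⊆ ⋃ m : Fin k, {p : ℕ × ℕ | p.1 = m ∧ χ p = true} := by
        intro p hp
        have : p.1 < k := by
          by_contra hcon
          push Not at hcon
          have := hk' p.1 hcon p.2
          rw [Prod.mk.eta] at this
          exact absurd (this.symm.trans hp) (by simp)
        exact mem_iUnion.2 ⟨⟨p.1, this⟩, rfl, hp⟩
      refine Set.Finite.subset (finite_iUnion fun m => ?_) hfin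
      refine Set.Subsingleton.finite ?_
      rintro ⟨a, b⟩ ⟨h1, h2⟩ ⟨a', b'⟩ ⟨h1', h2'⟩
      simp only at h1 h1'
      subst h1 h1'
      rw [huniq _ _ _ h2 h2']

end Pool.Agent.T2h30.KS
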