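import Mathlib
import Pool.Agent.T2h30.KS.Sec
import Pool.Agent.T2h30.KS.Top

set_option autoImplicit false

/-!
# The compact data extracted from an aperiodic countable Borel equivalence relation
-/

namespace Pool.Agent.T2h30.KS

open Set TopologicalSpace Filter
open scoped Topology

theorem exists_inverse {X : Type} [MeasurableSpace X] [StandardBorelSpace X] (g : X → X)
    (hg : Measurable g) (D : Set X) (hD : MeasurableSet D) (hi : InjOn g D) :
    ∃ ψ : X → X, Measurable ψ ∧ ∀ x ∈ D, ψ (g x) = x := by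
  have : StandardBorelSpace D := hD.standardBorel
  have h1 : Measurable fun x : D => g x := hg.comp measurable_subtype_coe
  have h2 : Function.Injective fun x : D => g x := fun x y h => Subtype.ext (hi x.2 y.2 h)
  obtain ⟨ψ, hψ, he⟩ := (h1.measurableEmbedding h2).exists_measurable_extend
    (measurable_subtype_coe : Measurable (Subtype.val : D → X)) fun x => ⟨x⟩
  exact ⟨ψ, hψ, fun x hx => congrFun he ⟨x, hx⟩⟩

theorem exists_ultrafilter_of_mem_closure {X Y : Type} [TopologicalSpace Y] (f : X → Y) (A : Set X)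
    (y : Y) (hy : y ∈ closure (f '' A)) :
    ∃ F : Ultrafilter X, A ∈ F ∧ Tendsto f F (𝓝 y) := by
  obtain ⟨u, hu1, hu2⟩ := mem_closure_iff_ultrafilter.1 hy
  refine ⟨Ultrafilter.ofComapInfPrincipal hu1, Ultrafilter.ofComapInfPrincipal_mem hu1, ?_⟩
  have h := Ultrafilter.ofComapInfPrincipal_eq_of_map hu1
  have h' : map f (Ultrafilter.ofComapInfPrincipal hu1 : Filter X) = (u : Filter Y) := by
    rw [← Ultrafilter.coe_map, h]
  rw [Tendsto, h']
  exact hu2

/-- The data: `φ` is an injection of `X` into a compact space, `ι` the index of the section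
containing a point, `P` a compact set of sequences of points of the closures of the sections, `pt` a
sequence of points of `P` visiting every open set infinitely often. -/
structure Data (X : Type) [MeasurableSpace X] (E : X → X → Prop) (s : ℕ → X → X) where
  φ : X → KK
  ι : X → ℕ
  P : Set (ℕ → KK)
  pt : ℕ → ℕ → KK
  φm : Measurable φ
  φi : Function.Injective φ
  φR : ∀ x, φ x ∉ Rem
  ιm : Measurable ι
  ιc : ∀ x i, ∃ x', E x x' ∧ ι x' = i
  Pc : IsCompact P
  ptP : ∀ j, pt j ∈ P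
  ptd : ∀ p ∈ P, ∀ (N : ℕ) (O : Set (ℕ → KK)), IsOpen O → p ∈ O → ∃ j, N ≤ j ∧ pt j ∈ O
  Pd : ∀ p ∈ P, (∃ x : ℕ → X, (∀ i, ι (x i) = i ∧ p i = φ (x i)) ∧ ∀ i j, E (x i) (x j)) ∨
    ∀ i, p i ∈ Rem
  Ps : ∀ x, ∃ p ∈ P, p (ι x) = φ x
  Q : ℕ → ℕ → ℕ → Set (KK × KK)
  Qc : ∀ k i j, IsCompact (Q k i j)
  Qd : ∀ k i j, ∀ κ ∈ Q k i j, (∃ x, φ x = κ.1 ∧ φ (s k x) = κ.2 ∧ ι x = i ∧ ι (s k x) = j) ∨
    (κ.1 ∈ Rem ∧ κ.2 ∈ Rem)
  QP : ∀ k i j, ∀ κ ∈ Q k i j, (∃ p ∈ P, p i = κ.1) ∧ ∃ p ∈ P, p j = κ.2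
  Qx : ∀ k x, (φ x, φ (s k x)) ∈ Q k (ι x) (ι (s k x))

theorem exists_data {X : Type} [MeasurableSpace X] [StandardBorelSpace X] [Nonempty X]
    {E : X → X → Prop} {s : ℕ → X → X} (hE : Equivalence E) (hs : ∀ n, Measurable (s n))
    (hi : ∀ n x, s n (s n x) = x) (hsE : ∀ x y, E x y ↔ ∃ n, s n x = y)
    (hinf : ∀ x, {y | E x y}.Infinite) : Nonempty (Data X E s) := by
  classical
  obtain ⟨ι, q, hιm, hqm, hιq, hEq, hqs, hF⟩ := exists_sections hE hs hi hsE hinf
  choose N c hcm hcN hcinj using hF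
  have H : ∀ i k, ∃ ψ : X → X, Measurable ψ ∧ ∀ x, c i x = k → ψ (q i x) = x := by
    intro i k
    obtain ⟨ψ, h1, h2⟩ := exists_inverse (q i) (hqm i) (c i ⁻¹' {k})
      (hcm i (measurableSet_singleton k)) (fun x hx y hy h =>
        hcinj i x (mem_univ _) y (mem_univ _) h (hx.trans hy.symm))
    exact ⟨ψ, h1, h2⟩
  choose ψ hψm hψ using H
  -- all maps
  let g : ℕ → X → X := fun n =>
    if (Nat.unpair n).1 = 0 then s (Nat.unpair n).2
    else if (Nat.unpair n).1 = 1 then q (Nat.unpair n).2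
    else ψ (Nat.unpair n).2 ((Nat.unpair n).1 - 2)
  have hg : ∀ n, Measurable (g n) := by
    intro n
    simp only [g]
    split_ifs
    · exact hs _
    · exact hqm _
    · exact hψm _ _
  let t0 := upgradeStandardBorel X
  obtain ⟨t, hp, hb, hgc, hιc, hzd⟩ := exists_zd (H := ℕ) g hg ι hιm
  clear t0
  have hsc : ∀ n, Continuous (s n) := by
    intro n
    have := hgc (Nat.pair 0 n)
    simp only [g, Nat.unpair_pair, if_true] at this
    exact this
  have hqc : ∀ n, Continuous (q n) := by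
    intro n
    have := hgc (Nat.pair 1 n)
    simp only [g, Nat.unpair_pair, if_true, one_ne_zero, if_false] at this
    exact this
  have hψc : ∀ i k, Continuous (ψ i k) := by
    intro i k
    have := hgc (Nat.pair (k + 2) i)
    have h1 : ¬ k + 2 = 0 := by omega
    have h2 : ¬ k + 2 = 1 := by omega
    simp only [g, Nat.unpair_pair, h1, h2, if_false, Nat.add_sub_cancel] at this
    exact this
  obtain ⟨φ, hφc, hφi, hφR, hφF⟩ := exists_compactification hzd
  -- ultrafilters which do not converge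
  have hnc_s : ∀ (F : Ultrafilter X) k, (¬ ∃ x, (F : Filter X) ≤ 𝓝 x) →
      ¬ ∃ x, (F.map (s k) : Filter X) ≤ 𝓝 x := by
    rintro F k hF ⟨x, hx⟩
    apply hF
    refine ⟨s k x, ?_⟩
    have h1 : Tendsto (s k) (F.map (s k) : Filter X) (𝓝 (s k x)) :=
      ((hsc k).tendsto x).mono_left hx
    rw [Ultrafilter.coe_map, tendsto_map'_iff] at h1
    have h2 : s k ∘ s k = id := funext fun x => hi k x
    rw [h2] at h1
    exact h1
  have hnc_q : ∀ (F : Ultrafilter X) i, (¬ ∃ x, (F : Filter X) ≤ 𝓝 x) →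
      ¬ ∃ x, (F.map (q i) : Filter X) ≤ 𝓝 x := by
    rintro F i hF ⟨x, hx⟩
    apply hF
    -- the piece is eventually constant
    obtain ⟨k, hk⟩ : ∃ k, ∀ᶠ x in (F : Filter X), c i x = k := by
      have h1 : ∀ᶠ x in (F : Filter X), ∃ k ∈ Finset.range (N i), c i x = k :=
        Eventually.of_forall fun x => ⟨c i x, Finset.mem_range.2 (hcN i x), rfl⟩
      have h2 : (⋃ k ∈ (Finset.range (N i) : Set ℕ), {x | c i x = k}) ∈ F := by
        refine mem_of_superset (show {x | ∃ k ∈ Finset.range (N i), c i x = k} ∈ F from h1) ?_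
        rintro x ⟨k, hk, hx⟩
        exact mem_iUnion₂.2 ⟨k, hk, hx⟩
      obtain ⟨k, -, hk⟩ := (Ultrafilter.finite_biUnion_mem_iff (Finset.finite_toSet _)).1 h2
      exact ⟨k, hk⟩
    refine ⟨ψ i k x, ?_⟩
    have h1 : Tendsto (ψ i k) (F.map (q i) : Filter X) (𝓝 (ψ i k x)) :=
      ((hψc i k).tendsto x).mono_left hx
    rw [Ultrafilter.coe_map, tendsto_map'_iff] at h1
    have h2 : Tendsto id (F : Filter X) (𝓝 (ψ i k x)) := by
      refine h1.congr' ?_
      filter_upwards [hk] with x hx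
      exact hψ i k x hx
    exact h2
  let Φ : X → ℕ → KK := fun x i => φ (q i x)
  have hΦc : Continuous Φ := continuous_pi fun i => hφc.comp (hqc i)
  let P : Set (ℕ → KK) := closure (range Φ)
  have hPd : ∀ p ∈ P, (∃ x, p = Φ x) ∨ ∀ i, p i ∈ Rem := by
    intro p hp
    rw [show P = closure (Φ '' univ) by rw [image_univ]] at hp
    obtain ⟨F, -, hF⟩ := exists_ultrafilter_of_mem_closure Φ univ p hp
    by_cases hconv : ∃ x, (F : Filter X) ≤ 𝓝 x
    · obtain ⟨x, hx⟩ := hconv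
      exact Or.inl ⟨x, tendsto_nhds_unique hF ((hΦc.tendsto x).mono_left hx)⟩
    · refine Or.inr fun i => ?_
      have h1 : Tendsto φ (F.map (q i) : Filter X) (𝓝 (p i)) := by
        rw [Ultrafilter.coe_map, tendsto_map'_iff]
        exact (tendsto_pi_nhds.1 hF) i
      rcases hφF (F.map (q i)) (p i) h1 with ⟨x, hx, -⟩ | ⟨h, -⟩
      · exact absurd ⟨x, hx⟩ (hnc_q F i hconv)
      · exact h
  have hPx : ∀ x, Φ x ∈ P := fun x => subset_closure (mem_range_self x)
  have hPs : ∀ x, ∃ p ∈ P, p (ι x) = φ x := by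
    intro x
    obtain ⟨x', hx'⟩ := hqs x
    exact ⟨Φ x', hPx x', by simp only [Φ, hx']⟩
  let Q : ℕ → ℕ → ℕ → Set (KK × KK) := fun k i j =>
    closure ((fun x => (φ x, φ (s k x))) '' {x | ι x = i ∧ ι (s k x) = j})
  let d : ℕ → X := denseSeq X
  have hPc : IsCompact P := isClosed_closure.isCompact
  refine ⟨Data.mk φ ι P (fun j => Φ (d (Nat.unpair j).1)) hφc.measurable hφi hφR hιm
    (fun x i => ⟨q i x, hEq i x, hιq i x⟩) hPc (fun j => hPx _) ?_ ?_ hPs Q
    (fun k i j => isClosed_closure.isCompact) ?_ ?_ ?_⟩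
  · intro p hp M O hO hpO
    obtain ⟨_, h1, x, rfl⟩ := mem_closure_iff.1 hp O hO hpO
    obtain ⟨m, hm⟩ := (denseRange_denseSeq X).exists_mem_open (hO.preimage hΦc) ⟨x, h1⟩
    refine ⟨Nat.pair m M, Nat.right_le_pair m M, ?_⟩
    simp only [Nat.unpair_pair]
    exact hm
  · intro p hp
    rcases hPd p hp with ⟨x, rfl⟩ | h
    · exact Or.inl ⟨fun i => q i x, fun i => ⟨hιq i x, rfl⟩, fun i j =>
        hE.trans (hE.symm (hEq i x)) (hEq j x)⟩
    · exact Or.inr h
  · intro k i j κ hκ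
    obtain ⟨F, hF1, hF2⟩ := exists_ultrafilter_of_mem_closure _ _ κ hκ
    have h1 : Tendsto φ F (𝓝 κ.1) := (continuous_fst.tendsto κ).comp hF2
    have h2 : Tendsto φ (F.map (s k) : Filter X) (𝓝 κ.2) := by
      rw [Ultrafilter.coe_map, tendsto_map'_iff]
      exact (continuous_snd.tendsto κ).comp hF2
    rcases hφF F κ.1 h1 with ⟨x, hx, hx1⟩ | ⟨hr, hn⟩
    · left
      refine ⟨x, hx1, ?_, ?_, ?_⟩
      · have h3 : Tendsto (fun x => φ (s k x)) F (𝓝 (φ (s k x))) :=
          ((hφc.comp (hsc k)).tendsto x).mono_left hx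
        rw [Ultrafilter.coe_map, tendsto_map'_iff] at h2
        exact tendsto_nhds_unique h3 h2
      · have h3 : Tendsto ι F (𝓝 (ι x)) := (hιc.tendsto x).mono_left hx
        have h4 : ∀ᶠ y in (F : Filter X), ι y = i :=
          mem_of_superset hF1 fun y hy => hy.1
        rw [nhds_discrete, tendsto_pure] at h3
        obtain ⟨y, hy1, hy2⟩ := (h3.and h4).exists
        exact hy1.symm.trans hy2
      · have h3 : Tendsto (fun y => ι (s k y)) F (𝓝 (ι (s k x))) :=
          ((hιc.comp (hsc k)).tendsto x).mono_left hx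
        have h4 : ∀ᶠ y in (F : Filter X), ι (s k y) = j :=
          mem_of_superset hF1 fun y hy => hy.2
        rw [nhds_discrete, tendsto_pure] at h3
        obtain ⟨y, hy1, hy2⟩ := (h3.and h4).exists
        exact hy1.symm.trans hy2
    · right
      refine ⟨hr, ?_⟩
      rcases hφF (F.map (s k)) κ.2 h2 with ⟨x, hx, -⟩ | ⟨h, -⟩
      · exact absurd ⟨x, hx⟩ (hnc_s F k hn)
      · exact h
  · intro k i j κ hκ
    have hcl : ∀ i, IsClosed ((fun p : ℕ → KK => p i) '' P) := fun i =>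
      (hPc.image (continuous_apply i)).isClosed
    have hsub : (fun x => (φ x, φ (s k x))) '' {x | ι x = i ∧ ι (s k x) = j} ⊆
        ((fun p : ℕ → KK => p i) '' P) ×ˢ ((fun p : ℕ → KK => p j) '' P) := by
      rintro _ ⟨x, ⟨rfl, rfl⟩, rfl⟩
      obtain ⟨p, hp, hp'⟩ := hPs x
      obtain ⟨p2, hp2, hp2'⟩ := hPs (s k x)
      exact ⟨⟨p, hp, hp'⟩, ⟨p2, hp2, hp2'⟩⟩
    obtain ⟨h1, h2⟩ := closure_minimal hsub ((hcl i).prod (hcl j)) hκ
    exact ⟨h1, h2⟩
  · intro k x
    exact subset_closure ⟨x, ⟨rfl, rfl⟩, rfl⟩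

end Pool.Agent.T2h30.KS
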