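import Mathlib
import Pool.Agent.T2h30.KS.Data

set_option autoImplicit false

/-!
# The space

`OS m0 C` is the one point compactification of the disjoint union of the compact sets `C n`.
The set `CC D e n` is the Cantor space `ZZ` in which every point `w` of finite support is replaced
by the compact set of all `p (e (w, n))`, `p ∈ D.P`.
-/

namespace Pool.Agent.T2h30.KS

open Set TopologicalSpace Filter
open scoped Topology

/-! ### One point sums -/

section OnePt

variable {M : Type} (m0 : M)

/-- the copy of `c` in the `n`-th summand -/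
def inc (n : ℕ) (c : M) : ℕ → Bool × M := Function.update (fun _ => (false, m0)) n (true, c)

/-- the point at infinity -/
def pinf : ℕ → Bool × M := fun _ => (false, m0)

/-- the one point sum of the sets `C n` -/
def OS (C : ℕ → Set M) : Set (ℕ → Bool × M) := {v | v = pinf m0 ∨ ∃ n, ∃ c ∈ C n, v = inc m0 n c}

theorem inc_same (n : ℕ) (c : M) : inc m0 n c n = (true, c) := Function.update_self ..

theorem inc_ne {m n : ℕ} (h : m ≠ n) (c : M) : inc m0 n c m = (false, m0) :=
  Function.update_of_ne h ..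

theorem inc_inj {n n' : ℕ} {c c' : M} (h : inc m0 n c = inc m0 n' c') : n = n' ∧ c = c' := by
  have h1 := congrFun h n
  rw [inc_same] at h1
  by_cases hn : n = n'
  · subst hn
    rw [inc_same] at h1
    exact ⟨rfl, (Prod.ext_iff.1 h1).2⟩
  · rw [inc_ne m0 hn] at h1
    exact absurd (Prod.ext_iff.1 h1).1 (by simp)

theorem inc_ne_pinf {n : ℕ} {c : M} : inc m0 n c ≠ pinf m0 := by
  intro h
  have h1 := congrFun h n
  rw [inc_same] at h1
  exact absurd (Prod.ext_iff.1 h1).1 (by simp [pinf])

variable [TopologicalSpace M]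

theorem inc_cont (n : ℕ) : Continuous (inc m0 n) := by
  refine continuous_pi fun m => ?_
  by_cases h : m = n
  · subst h
    simp only [inc_same]
    exact continuous_const.prodMk continuous_id
  · simp only [inc_ne m0 h]
    exact continuous_const

theorem inc_tendsto (c : ℕ → M) : Tendsto (fun n => inc m0 n (c n)) atTop (𝓝 (pinf m0)) := by
  rw [tendsto_pi_nhds]
  intro m
  refine tendsto_const_nhds.congr' ?_
  filter_upwards [eventually_gt_atTop m] with n hn
  exact (inc_ne m0 (by omega) _).symm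

theorem os_closed [T1Space M] {C : ℕ → Set M} (hC : ∀ n, IsClosed (C n)) :
    IsClosed (OS m0 C) := by
  have e : OS m0 C = (⋂ m : ℕ, ({v : ℕ → Bool × M | v m = (false, m0)} ∪
      ({v | (v m).1 = true} ∩ {v | (v m).2 ∈ C m}))) ∩
      ⋂ m : ℕ, ⋂ m' : ℕ, {v : ℕ → Bool × M | m = m' ∨ (v m).1 = false ∨ (v m').1 = false} := by
    ext v
    simp only [mem_inter_iff, mem_iInter, mem_union, mem_ofPred_eq]
    constructor
    · rintro (rfl | ⟨n, c, hc, rfl⟩)
      · exact ⟨fun m => Or.inl rfl, fun m m' => Or.inr (Or.inl rfl)⟩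
      · refine ⟨fun m => ?_, fun m m' => ?_⟩
        · by_cases h : m = n
          · subst h
            rw [inc_same]
            exact Or.inr ⟨rfl, hc⟩
          · exact Or.inl (inc_ne m0 h c)
        · by_cases h : m = n
          · by_cases h' : m' = n
            · exact Or.inl (h.trans h'.symm)
            · exact Or.inr (Or.inr (by rw [inc_ne m0 h']))
          · exact Or.inr (Or.inl (by rw [inc_ne m0 h]))
    · rintro ⟨h1, h2⟩
      by_cases h : ∃ m, (v m).1 = true
      · obtain ⟨m, hm⟩ := h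
        right
        refine ⟨m, (v m).2, ?_, ?_⟩
        · rcases h1 m with h3 | h3
          · rw [h3] at hm
            exact absurd hm (by simp)
          · exact h3.2
        · funext m'
          by_cases h' : m' = m
          · subst h'
            rw [inc_same]
            exact Prod.ext hm rfl
          · rw [inc_ne m0 h']
            rcases h2 m m' with h3 | h3 | h3
            · exact absurd h3.symm h'
            · rw [h3] at hm
              exact absurd hm (by simp)
            · rcases h1 m' with h4 | h4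
              · exact h4
              · rw [h4.1] at h3
                exact absurd h3 (by simp)
      · left
        funext m
        rcases h1 m with h3 | h3
        · exact h3
        · exact absurd ⟨m, h3.1⟩ h
  rw [e]
  have hb : ∀ (m : ℕ) (b : Bool), IsClosed {v : ℕ → Bool × M | (v m).1 = b} := fun m b =>
    isClosed_singleton.preimage (continuous_fst.comp (continuous_apply m))
  refine IsClosed.inter (isClosed_iInter fun m => IsClosed.union ?_ (IsClosed.inter (hb m true) ?_))
    (isClosed_iInter fun m => isClosed_iInter fun m' => ?_)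
  · exact isClosed_singleton.preimage (continuous_apply m)
  · exact (hC m).preimage (continuous_snd.comp (continuous_apply m))
  · by_cases h : m = m'
    · simp only [h, true_or]
      exact isClosed_univ
    · simp only [h, false_or]
      exact (hb m false).union (hb m' false)

end OnePt

/-! ### The Cantor space -/

/-- the Cantor space -/
abbrev ZZ : Type := ℕ → Bool

/-- the sequences of finite support -/
def Fs : Set ZZ := {z | ∃ N, ∀ n, N ≤ n → z n = false}

theorem fs_countable : Fs.Countable := by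
  classical
  have h : Fs ⊆ range fun s : Finset ℕ => fun p => decide (p ∈ s) := by
    rintro z ⟨N, hN⟩
    refine ⟨(Finset.range N).filter fun i => z i = true, ?_⟩
    funext i
    by_cases h : z i = true
    · have h1 : i < N := by
        by_contra hcon
        push Not at hcon
        rw [hN i hcon] at h
        exact absurd h (by simp)
      simp [h, h1]
    · simp [h]
  exact (countable_range _).mono h

/-- the group of the sequences of finite support -/
abbrev GG : Type := {z : ZZ // z ∈ Fs}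

instance : Countable GG := fs_countable.to_subtype

/-- the points that differ from `w` for the first time at `k` -/
def Sh (w : ZZ) (k : ℕ) : Set ZZ := {z | (∀ i, i < k → z i = w i) ∧ z k ≠ w k}

theorem sh_unique {z w : ZZ} {k k' : ℕ} (h : z ∈ Sh w k) (h' : z ∈ Sh w k') : k = k' := by
  rcases lt_trichotomy k k' with h1 | h1 | h1
  · exact absurd (h'.1 k h1) h.2
  · exact h1
  · exact absurd (h.1 k' h1) h'.2

theorem sh_exists {z w : ZZ} (h : z ≠ w) : ∃ k, z ∈ Sh w k := by
  classical
  have h1 : ∃ k, z k ≠ w k := by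
    by_contra hcon
    push Not at hcon
    exact h (funext hcon)
  refine ⟨Nat.find h1, fun i hi => ?_, Nat.find_spec h1⟩
  have := Nat.find_min h1 hi
  push Not at this
  exact this

theorem sh_self (w : ZZ) (k : ℕ) : w ∉ Sh w k := fun h => h.2 rfl

theorem isOpen_agree (w : ZZ) (k : ℕ) : IsOpen {z : ZZ | ∀ i, i < k → z i = w i} := by
  have : {z : ZZ | ∀ i, i < k → z i = w i} = ⋂ i : Fin k, {z : ZZ | z i = w i} := by
    ext z
    simp only [mem_ofPred_eq, mem_iInter]
    exact ⟨fun h i => h i i.2, fun h i hi => h ⟨i, hi⟩⟩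
  rw [this]
  exact isOpen_iInter_of_finite fun i =>
    (isOpen_discrete ({w i} : Set Bool)).preimage (continuous_apply (A := fun _ : ℕ => Bool) (i : ℕ))

theorem sh_open (w : ZZ) (k : ℕ) : IsOpen (Sh w k) := by
  have h : IsOpen {z : ZZ | z k ≠ w k} :=
    (isOpen_discrete ({w k}ᶜ : Set Bool)).preimage (continuous_apply (A := fun _ : ℕ => Bool) k)
  exact (isOpen_agree w k).inter h

/-- if `z` lies in a shell then so do all points which agree with `z` far enough -/
theorem sh_near {z w : ZZ} {k m : ℕ} (h : z ∈ Sh w k) (hk : k < m) {z' : ZZ}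
    (h' : ∀ i, i < m → z' i = z i) : z' ∈ Sh w k := by
  refine ⟨fun i hi => ?_, ?_⟩
  · rw [h' i (hi.trans hk)]
    exact h.1 i hi
  · rw [h' k hk]
    exact h.2

open Classical in
/-- the index of the shell -/
noncomputable def fd (z w : ZZ) : ℕ := if h : ∃ k, z ∈ Sh w k then h.choose else 0

theorem fd_eq {z w : ZZ} {k : ℕ} (h : z ∈ Sh w k) : fd z w = k := by
  have h1 : ∃ k, z ∈ Sh w k := ⟨k, h⟩
  rw [fd, dif_pos h1]
  exact sh_unique h1.choose_spec h

/-- addition modulo 2 -/
def xr (z γ : ZZ) : ZZ := fun i => Bool.xor (z i) (γ i)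

theorem xr_cont (γ : ZZ) : Continuous fun z => xr z γ :=
  continuous_pi fun i =>
    (continuous_of_discreteTopology (f := fun b => Bool.xor b (γ i))).comp (continuous_apply i)

theorem xr_xr (z γ : ZZ) : xr (xr z γ) γ = z := by
  funext i
  simp [xr]

theorem xr_fs {z γ : ZZ} (hγ : γ ∈ Fs) : xr z γ ∈ Fs ↔ z ∈ Fs := by
  have key : ∀ {z : ZZ}, z ∈ Fs → xr z γ ∈ Fs := by
    intro z hz
    obtain ⟨N, hN⟩ := hz
    obtain ⟨M, hM⟩ := hγ
    refine ⟨max N M, fun n hn => ?_⟩
    simp [xr, hN n (by omega), hM n (by omega)]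
  refine ⟨fun h => ?_, key⟩
  rw [← xr_xr z γ]
  exact key h

theorem xr_sh {z γ w : ZZ} {k : ℕ} : xr z γ ∈ Sh w k ↔ z ∈ Sh (xr w γ) k := by
  have h1 : ∀ a b c : Bool, Bool.xor a b = c ↔ a = Bool.xor c b := by decide
  simp only [Sh, xr, mem_ofPred_eq, h1, ne_eq]

/-- tail equivalence -/
def Tl (z z' : ZZ) : Prop := ∃ N, ∀ n, N ≤ n → z n = z' n

theorem tl_refl (z : ZZ) : Tl z z := ⟨0, fun _ _ => rfl⟩

theorem tl_symm {z z' : ZZ} (h : Tl z z') : Tl z' z := by
  obtain ⟨N, hN⟩ := h
  exact ⟨N, fun n hn => (hN n hn).symm⟩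

theorem tl_trans {z z' z'' : ZZ} (h : Tl z z') (h' : Tl z' z'') : Tl z z'' := by
  obtain ⟨N, hN⟩ := h
  obtain ⟨M, hM⟩ := h'
  exact ⟨max N M, fun n hn => (hN n (by omega)).trans (hM n (by omega))⟩

theorem tl_xr {z γ : ZZ} (hγ : γ ∈ Fs) : Tl z (xr z γ) := by
  obtain ⟨M, hM⟩ := hγ
  exact ⟨M, fun n hn => by simp [xr, hM n hn]⟩

theorem exists_xr {z z' : ZZ} (h : Tl z z') : ∃ γ ∈ Fs, z' = xr z γ := by
  obtain ⟨N, hN⟩ := h
  refine ⟨fun i => Bool.xor (z i) (z' i), ⟨N, fun n hn => by simp [hN n hn]⟩, ?_⟩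
  funext i
  simp [xr]

theorem tl_fs {z z' : ZZ} (h : Tl z z') : z ∈ Fs ↔ z' ∈ Fs := by
  obtain ⟨γ, hγ, rfl⟩ := exists_xr h
  exact (xr_fs hγ).symm

/-- tail classes are dense -/
theorem tl_dense (z : ZZ) (O : Set ZZ) (hO : IsOpen O) (hne : O.Nonempty) :
    ∃ z' ∈ O, Tl z z' := by
  classical
  obtain ⟨u, hu⟩ := hne
  have h1 : Tendsto (fun n : ℕ => (fun i => if i < n then u i else z i : ZZ)) atTop (𝓝 u) := by
    rw [tendsto_pi_nhds]
    intro i
    refine tendsto_const_nhds.congr' ?_
    filter_upwards [eventually_gt_atTop i] with n hn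
    rw [if_pos hn]
  obtain ⟨n, hn⟩ := (h1.eventually (hO.mem_nhds hu)).exists
  exact ⟨_, hn, n, fun i hi => (if_neg (by omega)).symm⟩

theorem tl_countable (z : ZZ) : {z' | Tl z z'}.Countable := by
  refine (fs_countable.image (xr z)).mono ?_
  intro z' hz'
  obtain ⟨γ, hγ, rfl⟩ := exists_xr hz'
  exact ⟨γ, hγ, rfl⟩

/-! ### The blow-up -/

/-- the space of configurations -/
abbrev HH : Type := ZZ × (GG → ℕ → KK)

/-- the ambient space of the pieces -/
abbrev MM : Type := ZZ × (GG → KK)

/-- the base point -/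
def m0 : MM := (fun _ => false, fun _ _ => false)

section Blow

variable {X : Type} [MeasurableSpace X] {E : X → X → Prop} {s : ℕ → X → X} (D : Data X E s)
  (e : GG × ℕ ≃ ℕ)

/-- the compact space of configurations -/
def Hat : Set HH := {y | ∀ w : GG, y.2 w ∈ D.P ∧ ∀ k, y.1 ∈ Sh w k → y.2 w = D.pt k}

theorem hat_closed : IsClosed (Hat D) := by
  have h : Hat D = ⋂ w : GG, ({y : HH | y.2 w ∈ D.P} ∩
      ⋂ k : ℕ, ({y : HH | y.1 ∈ Sh w k}ᶜ ∪ {y : HH | y.2 w = D.pt k})) := by
    ext y
    simp only [Hat, mem_ofPred_eq, mem_iInter, mem_inter_iff, mem_union, mem_compl_iff]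
    refine forall_congr' fun w => and_congr_right fun _ => forall_congr' fun k => ?_
    exact imp_iff_not_or
  rw [h]
  have hw : ∀ w : GG, Continuous fun y : HH => y.2 w := fun w =>
    (continuous_apply w).comp continuous_snd
  refine isClosed_iInter fun w => IsClosed.inter ?_ (isClosed_iInter fun k => IsClosed.union ?_ ?_)
  · exact D.Pc.isClosed.preimage (hw w)
  · exact (((sh_open (w : ZZ) k).preimage continuous_fst)).isClosed_compl
  · exact isClosed_singleton.preimage (hw w)

theorem hat_compact : IsCompact (Hat D) := (hat_closed D).isCompact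

/-- the projection to the `n`-th piece -/
def pr (n : ℕ) (y : HH) : MM := (y.1, fun w => y.2 w (e (w, n)))

theorem pr_cont (n : ℕ) : Continuous (pr e n) := by
  refine continuous_fst.prodMk (continuous_pi fun w => ?_)
  exact (continuous_apply _).comp ((continuous_apply w).comp continuous_snd)

/-- the `n`-th piece -/
def CC (n : ℕ) : Set MM := pr e n '' Hat D

theorem cc_closed (n : ℕ) : IsClosed (CC D e n) :=
  ((hat_compact D).image (pr_cont e n)).isClosed

/-- translations -/
def act (γ : GG) (y : HH) : HH := (xr y.1 γ, fun w => y.2 ⟨xr w γ, (xr_fs γ.2).2 w.2⟩)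

theorem act_cont (γ : GG) : Continuous (act γ) := by
  refine ((xr_cont γ).comp continuous_fst).prodMk (continuous_pi fun w => ?_)
  exact (continuous_apply _).comp continuous_snd

theorem act_hat {γ : GG} {y : HH} (hy : y ∈ Hat D) : act γ y ∈ Hat D := by
  intro w
  obtain ⟨h1, h2⟩ := hy ⟨xr w γ, (xr_fs γ.2).2 w.2⟩
  exact ⟨h1, fun k hk => h2 k (xr_sh.1 hk)⟩

/-- the basic configuration over `z` -/
noncomputable def cA (z : ZZ) : GG → ℕ → KK := fun w => D.pt (fd z w)

open Classical in
/-- the configuration over `w` given by `p` -/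
noncomputable def cB (w : GG) (p : ℕ → KK) : GG → ℕ → KK := Function.update (cA D w) w p

theorem cA_hat (z : ZZ) : (z, cA D z) ∈ Hat D := fun w =>
  ⟨D.ptP _, fun k hk => by
    show D.pt (fd z w) = D.pt k
    rw [fd_eq hk]⟩

theorem cB_hat (w : GG) {p : ℕ → KK} (hp : p ∈ D.P) : ((w : ZZ), cB D w p) ∈ Hat D := by
  classical
  intro w'
  by_cases h : w' = w
  · subst h
    simp only [cB, Function.update_self]
    exact ⟨hp, fun k hk => absurd hk (sh_self _ _)⟩
  · simp only [cB, Function.update_of_ne h]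
    exact cA_hat D w w'

theorem hat_A {z : ZZ} {p : GG → ℕ → KK} (h : (z, p) ∈ Hat D) (hz : z ∉ Fs) : p = cA D z := by
  funext w
  have hne : z ≠ w := fun he => hz (he ▸ w.2)
  obtain ⟨k, hk⟩ := sh_exists hne
  show p w = D.pt (fd z w)
  rw [fd_eq hk]
  exact (h w).2 k hk

theorem hat_B {w : GG} {p : GG → ℕ → KK} (h : ((w : ZZ), p) ∈ Hat D) : p = cB D w (p w) := by
  classical
  funext w'
  by_cases hw : w' = w
  · subst hw
    simp only [cB, Function.update_self]
  · simp only [cB, Function.update_of_ne hw]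
    have hne : (w : ZZ) ≠ w' := fun he => hw (Subtype.ext he.symm)
    obtain ⟨k, hk⟩ := sh_exists hne
    show p w' = D.pt (fd w w')
    rw [fd_eq hk]
    exact (h w').2 k hk

/-- the points over `z` -/
noncomputable def pA (n : ℕ) (z : ZZ) : MM := pr e n (z, cA D z)

open Classical in
/-- the points over `w` -/
noncomputable def pB (n : ℕ) (w : GG) (κ : KK) : MM :=
  ((w : ZZ), Function.update (fun w' => cA D w w' (e (w', n))) w κ)

theorem pr_cB (n : ℕ) (w : GG) (p : ℕ → KK) :
    pr e n ((w : ZZ), cB D w p) = pB D e n w (p (e (w, n))) := by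
  classical
  refine Prod.ext rfl ?_
  funext w'
  show cB D w p w' (e (w', n)) = Function.update (fun w' => cA D w w' (e (w', n))) w _ w'
  by_cases h : w' = w
  · subst h
    simp only [cB, Function.update_self]
  · simp only [cB, Function.update_of_ne h]

theorem pB_cont (n : ℕ) (w : GG) : Continuous (pB D e n w) := by
  classical
  refine continuous_const.prodMk (continuous_pi fun w' => ?_)
  by_cases h : w' = w
  · subst h
    simp only [Function.update_self]
    exact continuous_id
  · simp only [Function.update_of_ne h]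
    exact continuous_const

theorem pB_inj {n n' : ℕ} {w w' : GG} {κ κ' : KK} (h : pB D e n w κ = pB D e n' w' κ') :
    w = w' ∧ κ = κ' := by
  classical
  have h1 : w = w' := Subtype.ext (Prod.ext_iff.1 h).1
  subst h1
  refine ⟨rfl, ?_⟩
  have h2 := congrFun (Prod.ext_iff.1 h).2 w
  simpa only [pB, Function.update_self] using h2

theorem pA_mem (n : ℕ) (z : ZZ) : pA D e n z ∈ CC D e n := ⟨_, cA_hat D z, rfl⟩

theorem pB_mem {n : ℕ} {w : GG} {κ : KK} (h : ∃ p ∈ D.P, p (e (w, n)) = κ) :
    pB D e n w κ ∈ CC D e n := by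
  obtain ⟨p, hp, rfl⟩ := h
  exact ⟨_, cB_hat D w hp, pr_cB D e n w p⟩

theorem cc_cases {n : ℕ} {c : MM} (h : c ∈ CC D e n) :
    (∃ z, z ∉ Fs ∧ c = pA D e n z) ∨ ∃ w : GG, ∃ p ∈ D.P, c = pB D e n w (p (e (w, n))) := by
  obtain ⟨⟨z, p⟩, hy, rfl⟩ := h
  by_cases hz : z ∈ Fs
  · right
    refine ⟨⟨z, hz⟩, p ⟨z, hz⟩, (hy _).1, ?_⟩
    rw [← pr_cB, ← hat_B D (w := ⟨z, hz⟩) hy]
  · left
    refine ⟨z, hz, ?_⟩
    rw [pA, ← hat_A D hy hz]

theorem pA_cont (n : ℕ) : Continuous fun z : (Fsᶜ : Set ZZ) => pA D e n z := by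
  refine continuous_subtype_val.prodMk (continuous_pi fun w => ?_)
  rw [continuous_iff_continuousAt]
  intro z
  have hne : (z : ZZ) ≠ w := fun he => z.2 (he ▸ w.2)
  obtain ⟨k, hk⟩ := sh_exists hne
  refine continuousAt_const.congr (f := fun _ => D.pt k (e (w, n))) ?_
  have h1 : (Subtype.val : (Fsᶜ : Set ZZ) → ZZ) ⁻¹' Sh w k ∈ 𝓝 z :=
    ((sh_open _ k).preimage continuous_subtype_val).mem_nhds hk
  filter_upwards [h1] with z' hz'
  show D.pt k (e (w, n)) = D.pt (fd z' w) (e (w, n))
  rw [fd_eq hz']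

theorem tendsto_pr {n : ℕ} {y : HH} {y' : ℕ → HH} (h1 : Tendsto (fun k => (y' k).1) atTop (𝓝 y.1))
    (h2 : ∀ w : GG, Tendsto (fun k => (y' k).2 w (e (w, n))) atTop (𝓝 (y.2 w (e (w, n))))) :
    Tendsto (fun k => pr e n (y' k)) atTop (𝓝 (pr e n y)) := by
  rw [Prod.tendsto_iff]
  exact ⟨h1, tendsto_pi_nhds.2 h2⟩

/-- every point of a piece is approximated by all points over suitable open sets -/
theorem approx (n : ℕ) (c : MM) (hc : c ∈ CC D e n) :
    ∃ O : ℕ → Set ZZ, (∀ k, IsOpen (O k) ∧ (O k).Nonempty) ∧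
      ∀ c' : ℕ → MM, (∀ k, c' k ∈ CC D e n ∧ (c' k).1 ∈ O k) → Tendsto c' atTop (𝓝 c) := by
  obtain ⟨⟨z, p⟩, hy, rfl⟩ := hc
  -- the coordinates different from `z`
  have haux : ∀ (y' : ℕ → HH), (∀ k, y' k ∈ Hat D) → (∀ k i, i < k → (y' k).1 i = z i) →
      ∀ w : GG, z ≠ w → Tendsto (fun k => (y' k).2 w (e (w, n))) atTop (𝓝 (p w (e (w, n)))) := by
    intro y' hy' hz' w hne
    obtain ⟨m, hm⟩ := sh_exists hne
    refine tendsto_const_nhds.congr' ?_
    filter_upwards [eventually_gt_atTop m] with k hk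
    have h5 : p w = D.pt m := (hy w).2 m hm
    rw [(hy' k w).2 m (sh_near hm hk (hz' k)), h5]
  have haux1 : ∀ (y' : ℕ → HH), (∀ k i, i < k → (y' k).1 i = z i) →
      Tendsto (fun k => (y' k).1) atTop (𝓝 z) := by
    intro y' hz'
    rw [tendsto_pi_nhds]
    intro i
    refine tendsto_const_nhds.congr' ?_
    filter_upwards [eventually_gt_atTop i] with k hk
    exact (hz' k i hk).symm
  by_cases hz : z ∈ Fs
  · obtain ⟨U, hU⟩ := (𝓝 (p ⟨z, hz⟩)).exists_antitone_basis
    have h1 : ∀ k : ℕ, ∃ j, k ≤ j ∧ D.pt j ∈ U k := by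
      intro k
      obtain ⟨O, hO1, hO2, hO3⟩ := mem_nhds_iff.1 (hU.mem k)
      obtain ⟨j, hj1, hj2⟩ := D.ptd (p ⟨z, hz⟩) (hy _).1 k O hO2 hO3
      exact ⟨j, hj1, hO1 hj2⟩
    choose j hj1 hj2 using h1
    have hlim : Tendsto (fun k => D.pt (j k)) atTop (𝓝 (p ⟨z, hz⟩)) := hU.tendsto hj2
    refine ⟨fun k => Sh z (j k), fun k => ⟨sh_open _ _, ?_⟩, ?_⟩
    · refine ⟨Function.update z (j k) (!(z (j k))), fun i hi => ?_, ?_⟩
      · rw [Function.update_of_ne (by omega)]
      · rw [Function.update_self]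
        simp
    · intro c' hc'
      choose y' hy' he' using fun k => (hc' k).1
      have hs : ∀ k, (y' k).1 ∈ Sh z (j k) := by
        intro k
        have := (hc' k).2
        rw [← he' k] at this
        exact this
      have hag : ∀ k i, i < k → (y' k).1 i = z i := fun k i hi =>
        (hs k).1 i (lt_of_lt_of_le hi (hj1 k))
      have hc'e : c' = fun k => pr e n (y' k) := funext fun k => (he' k).symm
      rw [hc'e]
      refine tendsto_pr e (haux1 y' hag) fun w => ?_
      by_cases hw : z = w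
      · have hw' : w = ⟨z, hz⟩ := Subtype.ext hw.symm
        subst hw'
        have h3 : ∀ k, (y' k).2 ⟨z, hz⟩ = D.pt (j k) := fun k => (hy' k ⟨z, hz⟩).2 _ (hs k)
        simp only [h3]
        exact (tendsto_pi_nhds.1 hlim) _
      · exact haux y' hy' hag w hw
  · refine ⟨fun k => {z' | ∀ i, i < k → z' i = z i}, fun k => ⟨isOpen_agree z k, z, fun _ _ => rfl⟩,
      ?_⟩
    intro c' hc'
    choose y' hy' he' using fun k => (hc' k).1
    have hag : ∀ k i, i < k → (y' k).1 i = z i := by
      intro k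
      have := (hc' k).2
      rw [← he' k] at this
      exact this
    have hc'e : c' = fun k => pr e n (y' k) := funext fun k => (he' k).symm
    rw [hc'e]
    refine tendsto_pr e (haux1 y' hag) fun w => ?_
    exact haux y' hy' hag w fun he => hz (he ▸ w.2)

end Blow

end Pool.Agent.T2h30.KS
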