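import Mathlib
import Pool.Agent.TH722.CR.Core
import Pool.Agent.TH635.CR_ABS
import Pool.Agent.TH286.CR.GE
import Pool.Agent.H139R3.FM
import Pool.Agent.T2h30.KS.Space

set_option autoImplicit false
set_option linter.unusedSectionVars false

/-!
# Minimal `K_σ` realizations: assembly
-/

namespace Pool.Agent.T2h30.KS

open Set TopologicalSpace Filter
open scoped Topology

instance sbSum (A B : Type) [MeasurableSpace A] [StandardBorelSpace A] [MeasurableSpace B]
    [StandardBorelSpace B] : StandardBorelSpace (A ⊕ B) := by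
  let := upgradeStandardBorel A
  let := upgradeStandardBorel B
  have := Pool.Agent.TH722.CR.borelSpace_sum A B
  have h1 : PolishSpace (A ⊕ B) := { }
  infer_instance

instance bs1 : BorelSpace KK := inferInstance

instance bs2 : BorelSpace (GG → KK) := Pi.borelSpace

instance bs3 : BorelSpace MM := Prod.borelSpace

instance bs4 : BorelSpace (Bool × MM) := Prod.borelSpace

/-- the ambient space -/
abbrev AA : Type := ℕ → Bool × MM

instance bs5 : BorelSpace AA := Pi.borelSpace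

instance ps5 : PolishSpace AA := { }

section

variable {X : Type} [MeasurableSpace X] {E : X → X → Prop} {s : ℕ → X → X} (D : Data X E s)
  (e : GG × ℕ ≃ ℕ)

/-- the space -/
abbrev YY : Type := OS m0 (CC D e)

/-- the point over `z` in the `n`-th piece -/
noncomputable def jA (n : ℕ) (z : ZZ) : YY D e :=
  ⟨inc m0 n (pA D e n z), Or.inr ⟨n, _, pA_mem D e n z, rfl⟩⟩

/-- the points over `w` in the `n`-th piece -/
noncomputable def jB (n : ℕ) (w : GG) (κ : KK) (h : ∃ p ∈ D.P, p (e (w, n)) = κ) : YY D e :=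
  ⟨inc m0 n (pB D e n w κ), Or.inr ⟨n, _, pB_mem D e h, rfl⟩⟩

/-- the point at infinity -/
def jI : YY D e := ⟨pinf m0, Or.inl rfl⟩

theorem Ps' (x : X) : ∃ p ∈ D.P, p (e ((e.symm (D.ι x)).1, (e.symm (D.ι x)).2)) = D.φ x := by
  rw [Prod.mk.eta, e.apply_symm_apply]
  exact D.Ps x

/-- the copy of `X` -/
noncomputable def jX (x : X) : YY D e :=
  jB D e (e.symm (D.ι x)).2 (e.symm (D.ι x)).1 (D.φ x) (Ps' D e x)

theorem jX_eq {x : X} {n : ℕ} {w : GG} (h : D.ι x = e (w, n)) (h') :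
    jX D e x = jB D e n w (D.φ x) h' := by
  apply Subtype.ext
  have h1 : e.symm (D.ι x) = (w, n) := by rw [h, e.symm_apply_apply]
  show inc m0 (e.symm (D.ι x)).2 (pB D e (e.symm (D.ι x)).2 (e.symm (D.ι x)).1 (D.φ x)) = _
  rw [h1]
  rfl

/-- the remaining points -/
def SY : Set (YY D e) := {y | y = jI D e ∨ ∃ n w κ h, κ ∈ Rem ∧ y = jB D e n w κ h}

theorem sy_countable : (SY D e).Countable := by
  have : Countable Rem := rem_countable.to_subtype
  have h : Subtype.val '' SY D e ⊆ {pinf m0} ∪ range fun t : ℕ × GG × Rem =>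
      inc m0 t.1 (pB D e t.1 t.2.1 t.2.2) := by
    rintro _ ⟨y, (rfl | ⟨n, w, κ, h, hκ, rfl⟩), rfl⟩
    · exact Or.inl rfl
    · exact Or.inr ⟨(n, w, ⟨κ, hκ⟩), rfl⟩
  have h2 := ((countable_singleton _).union (countable_range _)).mono h
  exact countable_of_injective_of_countable_image Subtype.val_injective.injOn h2

/-- the part of the space without the copy of `X` -/
abbrev WW : Type := ((Fsᶜ : Set ZZ) × ℕ) ⊕ SY D e

/-- a tail class outside `Fs` -/
def z0 : ZZ := fun _ => true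

theorem z0_fs : z0 ∉ Fs := by
  rintro ⟨N, hN⟩
  exact absurd (hN N le_rfl) (by simp [z0])

/-- the tail class of a point -/
def tau : WW D e → ZZ := Sum.elim (fun p => (p.1 : ZZ)) (fun _ => z0)

/-- the relation on the remaining part -/
def TT (w w' : WW D e) : Prop := Tl (tau D e w) (tau D e w')

/-- the bijection -/
noncomputable def gg : X ⊕ WW D e → YY D e :=
  Sum.elim (jX D e) (Sum.elim (fun p => jA D e p.2 p.1) Subtype.val)

theorem jA_inj {n n' : ℕ} {z z' : ZZ} (h : jA D e n z = jA D e n' z') : n = n' ∧ z = z' := by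
  obtain ⟨h1, h2⟩ := inc_inj m0 (Subtype.ext_iff.1 h)
  exact ⟨h1, (Prod.ext_iff.1 h2).1⟩

theorem jB_inj {n n' : ℕ} {w w' : GG} {κ κ' : KK} {h h'}
    (he : jB D e n w κ h = jB D e n' w' κ' h') : n = n' ∧ w = w' ∧ κ = κ' := by
  obtain ⟨h1, h2⟩ := inc_inj m0 (Subtype.ext_iff.1 he)
  exact ⟨h1, pB_inj D e h2⟩

theorem jAB {n n' : ℕ} {z : ZZ} {w : GG} {κ : KK} {h} (he : jA D e n z = jB D e n' w κ h) :
    z ∈ Fs := by
  obtain ⟨h1, h2⟩ := inc_inj m0 (Subtype.ext_iff.1 he)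
  have h3 : z = w := (Prod.ext_iff.1 h2).1
  rw [h3]
  exact w.2

theorem jAI {n : ℕ} {z : ZZ} : jA D e n z ≠ jI D e := fun h =>
  inc_ne_pinf m0 (Subtype.ext_iff.1 h)

theorem jBI {n : ℕ} {w : GG} {κ : KK} {h} : jB D e n w κ h ≠ jI D e := fun h =>
  inc_ne_pinf m0 (Subtype.ext_iff.1 h)

theorem jX_inj {x x' : X} (h : jX D e x = jX D e x') : x = x' :=
  D.φi (jB_inj D e h).2.2

theorem jX_sy (x : X) : jX D e x ∉ SY D e := by
  rintro (h | ⟨n, w, κ, h', hκ, h⟩)
  · exact jBI D e h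
  · have := (jB_inj D e h).2.2
    rw [← this] at hκ
    exact D.φR x hκ

theorem jA_sy {n : ℕ} {z : ZZ} (hz : z ∉ Fs) : jA D e n z ∉ SY D e := by
  rintro (h | ⟨n, w, κ, h', hκ, h⟩)
  · exact jAI D e h
  · exact hz (jAB D e h)

theorem gg_inj : Function.Injective (gg D e) := by
  rintro (x | ⟨z, n⟩ | y) (x' | ⟨z', n'⟩ | y') h
  · exact congrArg Sum.inl (jX_inj D e h)
  · have h' : jA D e n' z' = jB D e _ _ _ (Ps' D e x) := Eq.symm h
    exact absurd (jAB D e h') z'.2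
  · exact absurd ((show jX D e x = y' from h) ▸ y'.2) (jX_sy D e x)
  · have h' : jA D e n z = jB D e _ _ _ (Ps' D e x') := h
    exact absurd (jAB D e h') z.2
  · obtain ⟨h1, h2⟩ := jA_inj D e h
    have h1' : n = n' := h1
    have h2' : z = z' := Subtype.ext h2
    rw [h1', h2']
  · exact absurd ((show jA D e n z = y' from h) ▸ y'.2) (jA_sy D e z.2)
  · exact absurd ((show (y : YY D e) = jX D e x' from h) ▸ y.2) (jX_sy D e x')
  · exact absurd ((show (y : YY D e) = jA D e n' z' from h) ▸ y.2) (jA_sy D e z'.2)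
  · rw [Subtype.ext (show (y : YY D e) = y' from h)]

/-- the points of the pieces over the finite sequences -/
theorem jB_cases {n : ℕ} {w : GG} {p : ℕ → KK} (hp : p ∈ D.P) (h) :
    (∃ x : ℕ → X, (∀ i j, E (x i) (x j)) ∧ (∀ i, D.ι (x i) = i ∧ p i = D.φ (x i))) ∨
      jB D e n w (p (e (w, n))) h ∈ SY D e := by
  rcases D.Pd p hp with ⟨x, h1, h2⟩ | h1
  · exact Or.inl ⟨x, h2, h1⟩
  · exact Or.inr (Or.inr ⟨n, w, _, h, h1 _, rfl⟩)

theorem gg_surj : Function.Surjective (gg D e) := by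
  rintro ⟨v, hv⟩
  have hv' := hv
  rcases hv' with rfl | ⟨n, c, hc, rfl⟩
  · exact ⟨Sum.inr (Sum.inr ⟨jI D e, Or.inl rfl⟩), rfl⟩
  · rcases cc_cases D e hc with ⟨z, hz, rfl⟩ | ⟨w, p, hp, rfl⟩
    · exact ⟨Sum.inr (Sum.inl (⟨z, hz⟩, n)), rfl⟩
    · rcases D.Pd p hp with ⟨x, h1, h2⟩ | h1
      · refine ⟨Sum.inl (x (e (w, n))), ?_⟩
        have h3 := (h1 (e (w, n)))
        show jX D e _ = _
        rw [jX_eq D e h3.1 ⟨p, hp, h3.2⟩]
        apply Subtype.ext
        show inc m0 n (pB D e n w _) = _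
        rw [← h3.2]
      · exact ⟨Sum.inr (Sum.inr ⟨jB D e n w _ ⟨p, hp, rfl⟩, Or.inr ⟨n, w, _, _, h1 _, rfl⟩⟩), rfl⟩

theorem gg_meas : Measurable (gg D e) := by
  refine Measurable.sumElim ?_ (Measurable.sumElim ?_ measurable_subtype_coe)
  · refine Measurable.subtype_mk ?_
    have h1 : ∀ i, Measurable fun x : X =>
        inc m0 (e.symm i).2 (pB D e (e.symm i).2 (e.symm i).1 (D.φ x)) := fun i =>
      (((inc_cont m0 _).comp (pB_cont D e _ _)).measurable).comp D.φm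
    intro S hS
    have h2 : (fun x => inc m0 (e.symm (D.ι x)).2
        (pB D e (e.symm (D.ι x)).2 (e.symm (D.ι x)).1 (D.φ x))) ⁻¹' S =
        ⋃ i, (D.ι ⁻¹' {i} ∩ (fun x : X =>
          inc m0 (e.symm i).2 (pB D e (e.symm i).2 (e.symm i).1 (D.φ x))) ⁻¹' S) := by
      ext x
      simp only [mem_preimage, mem_iUnion, mem_inter_iff, mem_singleton_iff]
      constructor
      · intro h
        exact ⟨_, rfl, h⟩
      · rintro ⟨i, rfl, h⟩
        exact h
    rw [h2]
    exact MeasurableSet.iUnion fun i => (D.ιm (measurableSet_singleton i)).inter (h1 i hS)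
  · refine Measurable.subtype_mk ?_
    refine measurable_from_prod_countable_left fun n => ?_
    exact ((inc_cont m0 n).comp (pA_cont D e n)).measurable

/-! ### The relation -/

variable [StandardBorelSpace X]

theorem oo_closed : IsClosed (OS m0 (CC D e)) := os_closed m0 (cc_closed D e)

instance : PolishSpace (YY D e) := (oo_closed D e).polishSpace

instance : CompactSpace (YY D e) := isCompact_iff_compactSpace.1 (oo_closed D e).isCompact

theorem fs_meas : MeasurableSet Fs := fs_countable.measurableSet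

instance : StandardBorelSpace (Fsᶜ : Set ZZ) := fs_meas.compl.standardBorel

instance : StandardBorelSpace (SY D e) := (sy_countable D e).measurableSet.standardBorel

/-- the measurable equivalence -/
noncomputable def gE : (X ⊕ WW D e) ≃ᵐ YY D e where
  toEquiv := Equiv.ofBijective (gg D e) ⟨gg_inj D e, gg_surj D e⟩
  measurable_toFun := gg_meas D e
  measurable_invFun := by
    intro S hS
    have h1 := ((gg_meas D e).measurableEmbedding (gg_inj D e)).measurableSet_image' hS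
    convert h1 using 1
    ext y
    constructor
    · intro h
      exact ⟨_, h, (Equiv.ofBijective (gg D e) ⟨gg_inj D e, gg_surj D e⟩).apply_symm_apply y⟩
    · rintro ⟨a, ha, rfl⟩
      show (Equiv.ofBijective (gg D e) ⟨gg_inj D e, gg_surj D e⟩).symm (gg D e a) ∈ S
      rw [show gg D e a = Equiv.ofBijective (gg D e) ⟨gg_inj D e, gg_surj D e⟩ a from rfl,
        Equiv.symm_apply_apply]
      exact ha

theorem gE_apply (a : X ⊕ WW D e) : gE D e a = gg D e a := rfl

/-- the relation on the space -/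
def RY (y y' : YY D e) : Prop := Sum.LiftRel E (TT D e) ((gE D e).symm y) ((gE D e).symm y')

theorem RY_gg (a b : X ⊕ WW D e) :
    RY D e (gg D e a) (gg D e b) ↔ Sum.LiftRel E (TT D e) a b := by
  rw [RY, ← gE_apply, ← gE_apply, MeasurableEquiv.symm_apply_apply,
    MeasurableEquiv.symm_apply_apply]

theorem RY_X {x x' : X} : RY D e (jX D e x) (jX D e x') ↔ E x x' := by
  have := RY_gg D e (Sum.inl x) (Sum.inl x')
  rw [Sum.liftRel_inl_inl] at this
  exact this

theorem RY_W {w w' : WW D e} :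
    RY D e (gg D e (Sum.inr w)) (gg D e (Sum.inr w')) ↔ TT D e w w' := by
  have := RY_gg D e (Sum.inr w) (Sum.inr w')
  rw [Sum.liftRel_inr_inr] at this
  exact this

theorem RY_A {n n' : ℕ} {z z' : ZZ} (hz : z ∉ Fs) (h : Tl z z') :
    RY D e (jA D e n z) (jA D e n' z') :=
  (RY_W D e (w := Sum.inl (⟨z, hz⟩, n))
    (w' := Sum.inl (⟨z', fun h' => hz ((tl_fs h).2 h')⟩, n'))).2 h

theorem RY_S {y y' : YY D e} (hy : y ∈ SY D e) (hy' : y' ∈ SY D e) : RY D e y y' :=
  (RY_W D e (w := Sum.inr ⟨y, hy⟩) (w' := Sum.inr ⟨y', hy'⟩)).2 (tl_refl _)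

/-- the points over a sequence `p` -/
theorem RY_P {n n' : ℕ} {w w' : GG} {p : ℕ → KK} (hp : p ∈ D.P) (h h') :
    RY D e (jB D e n w (p (e (w, n))) h) (jB D e n' w' (p (e (w', n'))) h') := by
  rcases D.Pd p hp with ⟨x, h1, h2⟩ | h1
  · have h3 := (h1 (e (w, n)))
    have h4 := (h1 (e (w', n')))
    have e1 : jB D e n w (p (e (w, n))) h = jX D e (x (e (w, n))) := by
      rw [jX_eq D e h3.1 ⟨p, hp, h3.2⟩]
      apply Subtype.ext
      show inc m0 n (pB D e n w _) = inc m0 n (pB D e n w _)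
      rw [← h3.2]
    have e2 : jB D e n' w' (p (e (w', n'))) h' = jX D e (x (e (w', n'))) := by
      rw [jX_eq D e h4.1 ⟨p, hp, h4.2⟩]
      apply Subtype.ext
      show inc m0 n' (pB D e n' w' _) = inc m0 n' (pB D e n' w' _)
      rw [← h4.2]
    rw [e1, e2, RY_X]
    exact h2 _ _
  · exact RY_S D e (Or.inr ⟨n, w, _, h, h1 _, rfl⟩) (Or.inr ⟨n', w', _, h', h1 _, rfl⟩)

/-- the countable class -/
def C0 : Set (YY D e) := {y | ∃ w : WW D e, gg D e (Sum.inr w) = y ∧ Tl z0 (tau D e w)}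

theorem c0_countable : (C0 D e).Countable := by
  have h0 : Countable {z' | Tl z0 z'} := (tl_countable z0).to_subtype
  have h : C0 D e ⊆ SY D e ∪ range fun t : {z' | Tl z0 z'} × ℕ => jA D e t.2 t.1 := by
    rintro _ ⟨w | w, rfl, h⟩
    · exact Or.inr ⟨(⟨w.1, h⟩, w.2), rfl⟩
    · exact Or.inl w.2
  exact ((sy_countable D e).union (countable_range _)).mono h

theorem RY_C {y y' : YY D e} (hy : y ∈ C0 D e) (hy' : y' ∈ C0 D e) : RY D e y y' := by
  obtain ⟨w, rfl, h⟩ := hy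
  obtain ⟨w', rfl, h'⟩ := hy'
  exact (RY_W D e).2 (tl_trans (tl_symm h) h')

/-- the compact pieces of the first kind -/
noncomputable def pieceA (t : GG × ℕ × ℕ) (y : Hat D) : YY D e × YY D e :=
  (⟨inc m0 t.2.1 (pr e t.2.1 y), Or.inr ⟨t.2.1, _, ⟨y, y.2, rfl⟩, rfl⟩⟩,
    ⟨inc m0 t.2.2 (pr e t.2.2 (act t.1 y)), Or.inr ⟨t.2.2, _, ⟨act t.1 y, act_hat D y.2, rfl⟩,
      rfl⟩⟩)

theorem pieceA_cont (t : GG × ℕ × ℕ) : Continuous (pieceA D e t) := by
  refine Continuous.prodMk ?_ ?_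
  · exact (((inc_cont m0 _).comp (pr_cont e _)).comp continuous_subtype_val).subtype_mk _
  · exact ((((inc_cont m0 _).comp (pr_cont e _)).comp (act_cont _)).comp
      continuous_subtype_val).subtype_mk _

theorem pieceA_RY (t : GG × ℕ × ℕ) (y : Hat D) :
    RY D e (pieceA D e t y).1 (pieceA D e t y).2 := by
  obtain ⟨γ, n, m⟩ := t
  obtain ⟨⟨z, p⟩, hy⟩ := y
  by_cases hz : z ∈ Fs
  · let w : GG := ⟨z, hz⟩
    let w' : GG := ⟨xr z γ, (xr_fs γ.2).2 hz⟩
    have hp : p w ∈ D.P := (hy w).1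
    have e1 : p = cB D w (p w) := hat_B D (w := w) hy
    have hy' : act γ (z, p) ∈ Hat D := act_hat D hy
    have e2 : (act γ (z, p)).2 = cB D w' ((act γ (z, p)).2 w') := hat_B D (w := w') hy'
    have e3 : (act γ (z, p)).2 w' = p w := by
      show p ⟨xr (xr z γ) γ, _⟩ = p w
      congr 1
      exact Subtype.ext (xr_xr z γ)
    rw [e3] at e2
    have f1 : (pieceA D e (γ, n, m) ⟨(z, p), hy⟩).1 = jB D e n w (p w (e (w, n))) ⟨_, hp, rfl⟩ := by
      apply Subtype.ext
      show inc m0 n (pr e n (z, p)) = inc m0 n (pB D e n w _)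
      rw [← pr_cB, ← e1]
    have f2 : (pieceA D e (γ, n, m) ⟨(z, p), hy⟩).2 =
        jB D e m w' (p w (e (w', m))) ⟨_, hp, rfl⟩ := by
      apply Subtype.ext
      show inc m0 m (pr e m (act γ (z, p))) = inc m0 m (pB D e m w' _)
      rw [← pr_cB, ← e2]
      rfl
    rw [f1, f2]
    exact RY_P D e hp _ _
  · have e1 : p = cA D z := hat_A D hy hz
    have hz' : xr z γ ∉ Fs := fun h => hz ((xr_fs γ.2).1 h)
    have hy' : act γ (z, p) ∈ Hat D := act_hat D hy
    have e2 : (act γ (z, p)).2 = cA D (xr z γ) := hat_A D hy' hz'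
    have f1 : (pieceA D e (γ, n, m) ⟨(z, p), hy⟩).1 = jA D e n z := by
      apply Subtype.ext
      show inc m0 n (pr e n (z, p)) = inc m0 n (pr e n (z, cA D z))
      rw [← e1]
    have f2 : (pieceA D e (γ, n, m) ⟨(z, p), hy⟩).2 = jA D e m (xr z γ) := by
      apply Subtype.ext
      show inc m0 m (pr e m (act γ (z, p))) = inc m0 m (pr e m (xr z γ, cA D (xr z γ)))
      rw [← e2]
      rfl
    rw [f1, f2]
    exact RY_A D e hz (tl_xr γ.2)

/-- the compact pieces of the second kind -/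
noncomputable def pieceB (t : ℕ × (GG × ℕ) × (GG × ℕ)) (κ : D.Q t.1 (e t.2.1) (e t.2.2)) :
    YY D e × YY D e :=
  (jB D e t.2.1.2 t.2.1.1 κ.1.1 (D.QP _ _ _ κ.1 κ.2).1,
    jB D e t.2.2.2 t.2.2.1 κ.1.2 (D.QP _ _ _ κ.1 κ.2).2)

theorem pieceB_cont (t : ℕ × (GG × ℕ) × (GG × ℕ)) : Continuous (pieceB D e t) := by
  refine Continuous.prodMk ?_ ?_
  · exact (((inc_cont m0 _).comp (pB_cont D e _ _)).comp
      (continuous_fst.comp continuous_subtype_val)).subtype_mk _
  · exact (((inc_cont m0 _).comp (pB_cont D e _ _)).comp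
      (continuous_snd.comp continuous_subtype_val)).subtype_mk _

theorem pieceB_RY (hsE : ∀ x y, E x y ↔ ∃ n, s n x = y) (t : ℕ × (GG × ℕ) × (GG × ℕ))
    (κ : D.Q t.1 (e t.2.1) (e t.2.2)) : RY D e (pieceB D e t κ).1 (pieceB D e t κ).2 := by
  obtain ⟨k, ⟨w, n⟩, ⟨w', n'⟩⟩ := t
  rcases D.Qd _ _ _ κ.1 κ.2 with ⟨x, h1, h2, h3, h4⟩ | ⟨h1, h2⟩
  · have q1 := (D.QP _ _ _ κ.1 κ.2).1
    have q2 := (D.QP _ _ _ κ.1 κ.2).2
    have e1 : (pieceB D e (k, (w, n), (w', n')) κ).1 = jX D e x := by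
      rw [jX_eq D e h3 (by rw [h1]; exact q1)]
      apply Subtype.ext
      show inc m0 n (pB D e n w _) = inc m0 n (pB D e n w _)
      rw [h1]
    have e2 : (pieceB D e (k, (w, n), (w', n')) κ).2 = jX D e (s k x) := by
      rw [jX_eq D e h4 (by rw [h2]; exact q2)]
      apply Subtype.ext
      show inc m0 n' (pB D e n' w' _) = inc m0 n' (pB D e n' w' _)
      rw [h2]
    rw [e1, e2, RY_X]
    exact (hsE _ _).2 ⟨k, rfl⟩
  · exact RY_S D e (Or.inr ⟨n, w, κ.1.1, (D.QP _ _ _ κ.1 κ.2).1, h1, rfl⟩)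
      (Or.inr ⟨n', w', κ.1.2, (D.QP _ _ _ κ.1 κ.2).2, h2, rfl⟩)

/-- The relation is a countable union of compact sets. -/
theorem RY_ksigma (hsE : ∀ x y, E x y ↔ ∃ n, s n x = y) :
    ∃ K : ℕ → Set (YY D e × YY D e), (∀ n, IsCompact (K n)) ∧
      {p : YY D e × YY D e | RY D e p.1 p.2} = ⋃ n, K n := by
  have hC : Countable (C0 D e) := (c0_countable D e).to_subtype
  let J : Type := (GG × ℕ × ℕ) ⊕ ((ℕ × (GG × ℕ) × (GG × ℕ)) ⊕ (C0 D e × C0 D e))
  let L : J → Set (YY D e × YY D e) := Sum.elim (fun t => range (pieceA D e t))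
    (Sum.elim (fun t => range (pieceB D e t)) (fun t => {((t.1 : YY D e), (t.2 : YY D e))}))
  have hLc : ∀ j, IsCompact (L j) := by
    rintro (t | t | t)
    · have : CompactSpace (Hat D) := isCompact_iff_compactSpace.1 (hat_compact D)
      exact isCompact_range (pieceA_cont D e t)
    · have : CompactSpace (D.Q t.1 (e t.2.1) (e t.2.2)) := isCompact_iff_compactSpace.1 (D.Qc _ _ _)
      exact isCompact_range (pieceB_cont D e t)
    · exact isCompact_singleton
  have hLR : ∀ j, ∀ p ∈ L j, RY D e p.1 p.2 := by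
    rintro (t | t | t) p hp
    · obtain ⟨y, rfl⟩ := hp
      exact pieceA_RY D e t y
    · obtain ⟨y, rfl⟩ := hp
      exact pieceB_RY D e hsE t y
    · rw [mem_singleton_iff.1 hp]
      exact RY_C D e t.1.2 t.2.2
  have hne : Nonempty J := ⟨Sum.inl (⟨fun _ => false, 0, fun _ _ => rfl⟩, 0, 0)⟩
  obtain ⟨d, hd⟩ := exists_surjective_nat J
  refine ⟨fun n => L (d n), fun n => hLc _, ?_⟩
  ext ⟨y, y'⟩
  simp only [mem_ofPred_eq, mem_iUnion]
  constructor
  · intro h
    suffices hj : ∃ j, (y, y') ∈ L j by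
      obtain ⟨j, hj⟩ := hj
      obtain ⟨n, rfl⟩ := hd j
      exact ⟨n, hj⟩
    obtain ⟨a, rfl⟩ := gg_surj D e y
    obtain ⟨b, rfl⟩ := gg_surj D e y'
    rw [RY_gg] at h
    rcases h with ⟨h⟩ | ⟨h⟩
    · rename_i x x'
      obtain ⟨k, rfl⟩ := (hsE _ _).1 h
      refine ⟨Sum.inr (Sum.inl (k, e.symm (D.ι x), e.symm (D.ι (s k x)))), ?_⟩
      have hκ : (D.φ x, D.φ (s k x)) ∈ D.Q k (e (e.symm (D.ι x))) (e (e.symm (D.ι (s k x)))) := by
        rw [e.apply_symm_apply, e.apply_symm_apply]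
        exact D.Qx k x
      exact ⟨⟨_, hκ⟩, rfl⟩
    · rename_i w w'
      have h : Tl (tau D e w) (tau D e w') := h
      by_cases hw : Tl z0 (tau D e w)
      · have hw' : Tl z0 (tau D e w') := tl_trans hw h
        exact ⟨Sum.inr (Sum.inr (⟨_, w, rfl, hw⟩, ⟨_, w', rfl, hw'⟩)), rfl⟩
      · rcases w with ⟨z, n⟩ | w
        · rcases w' with ⟨z', n'⟩ | w'
          · obtain ⟨γ, hγ, he⟩ := exists_xr h
            refine ⟨Sum.inl (⟨γ, hγ⟩, n, n'), ⟨((z : ZZ), cA D z), cA_hat D z⟩, ?_⟩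
            refine Prod.ext (Subtype.ext rfl) (Subtype.ext ?_)
            show inc m0 n' (pr e n' (act ⟨γ, hγ⟩ ((z : ZZ), cA D z))) =
              inc m0 n' (pr e n' ((z' : ZZ), cA D z'))
            have hz' : xr (z : ZZ) γ ∉ Fs := fun h => z.2 ((xr_fs hγ).1 h)
            have e2 : (act ⟨γ, hγ⟩ ((z : ZZ), cA D z)).2 = cA D (xr z γ) :=
              hat_A D (act_hat D (cA_hat D z)) hz'
            have e3 : (z' : ZZ) = xr (z : ZZ) γ := he
            have e4 : act ⟨γ, hγ⟩ ((z : ZZ), cA D z) = (xr (z : ZZ) γ, cA D (xr z γ)) :=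
              Prod.ext rfl e2
            rw [e4, e3]
          · exact absurd (tl_symm h) hw
        · exact absurd (tl_refl z0) hw
  · rintro ⟨n, hn⟩
    exact hLR _ _ hn

/-- every class has points over every open set in every piece -/
theorem class_meets (y : YY D e) (n : ℕ) (O : Set ZZ) (hO : IsOpen O)
    (hne : O.Nonempty) :
    ∃ c ∈ CC D e n, c.1 ∈ O ∧ ∃ h, RY D e y ⟨inc m0 n c, h⟩ := by
  obtain ⟨a, rfl⟩ := gg_surj D e y
  rcases a with x | w
  · -- finite sequences are dense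
    obtain ⟨w, hw, hz⟩ := tl_dense (fun _ => false) O hO hne
    have hwF : w ∈ Fs := (tl_fs hz).1 ⟨0, fun _ _ => rfl⟩
    obtain ⟨x', hx', hι⟩ := D.ιc x (e (⟨w, hwF⟩, n))
    have hp : ∃ p ∈ D.P, p (e (⟨w, hwF⟩, n)) = D.φ x' := by
      rw [← hι]
      exact D.Ps x'
    refine ⟨pB D e n ⟨w, hwF⟩ (D.φ x'), pB_mem D e hp, hw, Or.inr ⟨n, _, pB_mem D e hp, rfl⟩, ?_⟩
    have h1 : jX D e x' = jB D e n ⟨w, hwF⟩ (D.φ x') hp := jX_eq D e hι hp
    have h2 : RY D e (jX D e x) (jX D e x') := (RY_X D e).2 hx'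
    rw [h1] at h2
    exact h2
  · have key : ∀ z : ZZ, z ∉ Fs → TT D e w w → (∀ n z' (h : z' ∉ Fs), Tl z z' →
        RY D e (gg D e (Sum.inr w)) (jA D e n z')) →
        ∃ c ∈ CC D e n, c.1 ∈ O ∧ ∃ h, RY D e (gg D e (Sum.inr w)) ⟨inc m0 n c, h⟩ := by
      intro z hz _ hR
      obtain ⟨z', hz'O, hz'⟩ := tl_dense z O hO hne
      have hzF : z' ∉ Fs := fun h => hz ((tl_fs hz').2 h)
      exact ⟨pA D e n z', pA_mem D e n z', hz'O, Or.inr ⟨n, _, pA_mem D e n z', rfl⟩,
        hR n z' hzF hz'⟩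
    have hτ : tau D e w ∉ Fs := by
      rcases w with ⟨z, m⟩ | w
      · exact z.2
      · exact z0_fs
    refine key (tau D e w) hτ (tl_refl _) fun m z' hz' h => ?_
    exact (RY_W D e (w' := Sum.inl (⟨z', hz'⟩, m))).2 h

/-- All classes are dense. -/
theorem RY_dense (y : YY D e) : Dense {y' | RY D e y y'} := by
  rintro ⟨v, hv⟩
  have hv' := hv
  rcases hv' with rfl | ⟨n, c, hc, rfl⟩
  · choose c hc _ h hR using fun n => class_meets D e y n univ isOpen_univ univ_nonempty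
    refine mem_closure_of_tendsto (f := fun n => (⟨inc m0 n (c n), h n⟩ : YY D e)) (b := atTop) ?_
      (Eventually.of_forall hR)
    rw [tendsto_subtype_rng]
    exact inc_tendsto m0 c
  · obtain ⟨O, hO, hlim⟩ := approx D e n c hc
    choose c' hc' hcO h hR using fun k => class_meets D e y n (O k) (hO k).1 (hO k).2
    refine mem_closure_of_tendsto (f := fun k => (⟨inc m0 n (c' k), h k⟩ : YY D e)) (b := atTop) ?_
      (Eventually.of_forall hR)
    rw [tendsto_subtype_rng]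
    exact ((inc_cont m0 n).tendsto c).comp (hlim c' fun k => ⟨hc' k, hcO k⟩)

end

end Pool.Agent.T2h30.KS
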