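import Mathlib
import Pool.Agent.H812R3.CantorChar
import Pool.Agent.T2h30.KS.Main

set_option autoImplicit false

/-!
# Minimal `K_σ` realizations: the theorem
-/

namespace Pool.Agent.T2h30.KS

open Set TopologicalSpace Filter MeasureTheory
open scoped Topology

/-- a Borel complete invariant gives a Borel transversal -/
theorem exists_transversal {X : Type} [MeasurableSpace X] [StandardBorelSpace X]
    (E : X → X → Prop) (hc : ∀ x, {y | E x y}.Countable) (f : X → ℝ) (hf : Measurable f)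
    (hEf : ∀ x y, E x y ↔ f x = f y) :
    ∃ T : Set X, MeasurableSet T ∧ ∀ x, ∃! y, y ∈ T ∧ E x y := by
  classical
  let := upgradeStandardBorel X
  let R : Set (ℝ × X) := {p | f p.2 = p.1}
  have hR : MeasurableSet R := measurableSet_eq_fun (hf.comp measurable_snd) measurable_fst
  have hRc : ∀ r, {y | (r, y) ∈ R}.Countable := by
    intro r
    rcases ({y | (r, y) ∈ R}).eq_empty_or_nonempty with h | ⟨y0, hy0⟩
    · rw [h]
      exact countable_empty
    · refine (hc y0).mono fun y hy => ?_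
      exact (hEf _ _).2 ((show f y0 = r from hy0).trans (show f y = r from hy).symm)
  obtain ⟨G, hG1, hG2, hG3⟩ := Pool.Agent.Helper281.LN.lusin_novikov hR hRc
  have hGR : ∀ n r y, (r, y) ∈ G n → f y = r := by
    intro n r y h
    have : (r, y) ∈ R := hG2 ▸ mem_iUnion.2 ⟨n, h⟩
    exact this
  have hRG : ∀ x, ∃ n, (f x, x) ∈ G n := by
    intro x
    have : (f x, x) ∈ ⋃ n, G n := by
      rw [hG2]
      exact rfl
    exact mem_iUnion.1 this
  have him : ∀ m, MeasurableSet (Prod.fst '' G m) := by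
    intro m
    refine (hG1 m).image_of_measurable_injOn measurable_fst ?_
    rintro ⟨a, b⟩ h ⟨a', b'⟩ h' hab
    simp only at hab
    subst hab
    rw [hG3 m _ _ _ h h']
  let T : Set X := {x | ∃ n, (f x, x) ∈ G n ∧ ∀ m, m < n → f x ∉ Prod.fst '' G m}
  refine ⟨T, ?_, ?_⟩
  · have e1 : T = ⋃ n : ℕ, ((fun x => (f x, x)) ⁻¹' G n ∩
        ⋂ m : ℕ, ⋂ _ : m < n, f ⁻¹' (Prod.fst '' G m)ᶜ) := by
      ext x
      simp only [T, mem_ofPred_eq, mem_iUnion, mem_inter_iff, mem_preimage, mem_iInter,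
        mem_compl_iff]
    rw [e1]
    refine MeasurableSet.iUnion fun n => ((hG1 n).preimage (hf.prodMk measurable_id)).inter
      (MeasurableSet.iInter fun m => MeasurableSet.iInter fun _ => (him m).compl.preimage hf)
  · intro x
    have hex : ∃ n, f x ∈ Prod.fst '' G n := by
      obtain ⟨n, hn⟩ := hRG x
      exact ⟨n, _, hn, rfl⟩
    obtain ⟨⟨r, y0⟩, hy0, hr⟩ := Nat.find_spec hex
    simp only at hr
    subst hr
    have hfy0 : f y0 = f x := hGR _ _ _ hy0
    refine ⟨y0, ⟨⟨Nat.find hex, ?_, ?_⟩, (hEf _ _).2 hfy0.symm⟩, ?_⟩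
    · rw [hfy0]
      exact hy0
    · intro m hm
      rw [hfy0]
      exact Nat.find_min hex hm
    · rintro y ⟨⟨n, hn1, hn2⟩, hy⟩
      have hfy : f x = f y := (hEf _ _).1 hy
      rw [← hfy] at hn1 hn2
      have e1 : n = Nat.find hex := by
        refine le_antisymm ?_ (Nat.find_min' hex ⟨_, hn1, rfl⟩)
        by_contra hcon
        push Not at hcon
        exact hn2 _ hcon (Nat.find_spec hex)
      rw [e1] at hn1
      exact hG3 _ _ _ _ hn1 hy0

section Cantor

variable {X : Type} [MeasurableSpace X] [StandardBorelSpace X] {E : X → X → Prop} {s : ℕ → X → X}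
  (D : Data X E s) (e : GG × ℕ ≃ ℕ)

/-- coordinates of the ambient space -/
def coor (i : ℕ × (Unit ⊕ (ℕ ⊕ (GG × (ℕ × ℕ))))) (a : AA) : Bool :=
  match i with
  | (n, Sum.inl _) => (a n).1
  | (n, Sum.inr (Sum.inl k)) => (a n).2.1 k
  | (n, Sum.inr (Sum.inr (w, p))) => (a n).2.2 w p

theorem coor_cont (i : ℕ × (Unit ⊕ (ℕ ⊕ (GG × (ℕ × ℕ))))) : Continuous (coor i) := by
  obtain ⟨n, _ | k | ⟨w, p⟩⟩ := i
  · exact continuous_fst.comp (continuous_apply n)
  · exact (continuous_apply k).comp (continuous_fst.comp (continuous_snd.comp (continuous_apply n)))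
  · exact (continuous_apply p).comp ((continuous_apply w).comp
      (continuous_snd.comp (continuous_snd.comp (continuous_apply n))))

theorem coor_inj {a b : AA} (h : ∀ i, coor i a = coor i b) : a = b := by
  funext n
  refine Prod.ext (h (n, Sum.inl ())) (Prod.ext ?_ ?_)
  · funext k
    exact h (n, Sum.inr (Sum.inl k))
  · funext w p
    exact h (n, Sum.inr (Sum.inr (w, p)))

/-- The space is homeomorphic to the Cantor space. -/
theorem yy_cantor : Nonempty (YY D e ≃ₜ (ℕ → Bool)) := by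
  have : Nonempty (YY D e) := ⟨jI D e⟩
  have : Nonempty (ℕ × (Unit ⊕ (ℕ ⊕ (GG × (ℕ × ℕ))))) := ⟨(0, Sum.inl ())⟩
  obtain ⟨r, hr⟩ := exists_surjective_nat (ℕ × (Unit ⊕ (ℕ ⊕ (GG × (ℕ × ℕ)))))
  refine Pool.Agent.H812R3.CantorChar.cantor_char (fun y k => coor (r k) y.1) ?_ ?_ ?_
  · exact continuous_pi fun k => (coor_cont _).comp continuous_subtype_val
  · intro y y' h
    refine Subtype.ext (coor_inj fun i => ?_)
    obtain ⟨k, rfl⟩ := hr i
    exact congrFun h k
  · intro y U hU hy
    -- a point which is not equivalent to `y`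
    obtain ⟨y', hy'⟩ : ∃ y', ¬ RY D e y' y := by
      by_contra hcon
      push Not at hcon
      let z1 : ZZ := fun n => decide (n % 2 = 0)
      have hz1 : z1 ∉ Fs := by
        rintro ⟨N, hN⟩
        have := hN (2 * N) (by omega)
        simp [z1] at this
      have h1 := hcon (gg D e (Sum.inr (Sum.inl (⟨z1, hz1⟩, 0))))
      have h2 := hcon (gg D e (Sum.inr (Sum.inl (⟨z0, z0_fs⟩, 0))))
      obtain ⟨a, rfl⟩ := gg_surj D e y
      rw [RY_gg] at h1 h2
      rcases a with a | a
      · exact Sum.not_liftRel_inr_inl h1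
      · rw [Sum.liftRel_inr_inr] at h1 h2
        obtain ⟨N, hN⟩ := tl_trans h1 (tl_symm h2)
        have := hN (2 * N + 1) (by omega)
        have h3 : (2 * N + 1) % 2 = 1 := by omega
        simp [z1, z0, tau, h3] at this
    obtain ⟨w, hw1, hw2⟩ := (RY_dense D e y').inter_open_nonempty U hU ⟨y, hy⟩
    refine ⟨w, hw1, ?_⟩
    rintro rfl
    exact hy' hw2

end Cantor

theorem main0 {X : Type} [MeasurableSpace X] [StandardBorelSpace X] (E : X → X → Prop)
    (hE : Equivalence E) (hm : MeasurableSet {p : X × X | E p.1 p.2})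
    (hc : ∀ x, {y | E x y}.Countable) (ha : ∀ x, {y | E x y}.Infinite)
    (hns : ¬ ∃ T : Set X, MeasurableSet T ∧ ∀ x, ∃! y, y ∈ T ∧ E x y) :
    ∃ f : X ≃ᵐ (ℕ → Bool),
      (∃ K : ℕ → Set ((ℕ → Bool) × (ℕ → Bool)), (∀ n, IsCompact (K n)) ∧
        {p : (ℕ → Bool) × (ℕ → Bool) | E (f.symm p.1) (f.symm p.2)} = ⋃ n, K n) ∧
      ∀ y, Dense {z | E (f.symm y) (f.symm z)} := by
  classical
  have hXne : Nonempty X := by
    by_contra hcon
    rw [not_nonempty_iff] at hcon
    exact hns ⟨∅, MeasurableSet.empty, fun x => (hcon.false x).elim⟩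
  obtain ⟨s, hsm, hsi, hs⟩ := Pool.Agent.H139R3.FM.feldman_moore E hE hm hc
  obtain ⟨D⟩ := exists_data hE hsm hsi hs ha
  have hfalse : (fun _ => false : ZZ) ∈ Fs := ⟨0, fun _ _ => rfl⟩
  have : Nonempty GG := ⟨⟨_, hfalse⟩⟩
  obtain ⟨e⟩ : Nonempty (GG × ℕ ≃ ℕ) := nonempty_equiv_of_countable
  obtain ⟨j, hj1, hj2, hj3⟩ := Pool.Agent.TH286.CR.glimm_effros s hsm hsi E hE hs (by
    rintro ⟨f, hf1, hf2⟩
    exact hns (exists_transversal E hc f hf1 hf2))
  -- the remaining part is absorbed
  have : Countable (SY D e) := (sy_countable D e).to_subtype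
  obtain ⟨en, hen⟩ := exists_injective_nat (SY D e)
  let code : WW D e → ℕ := Sum.elim (fun p => 2 * p.2) (fun y => 2 * en y + 1)
  have hcode : Measurable code := by
    refine Measurable.sumElim ?_ (measurable_of_countable _)
    exact (measurable_from_top (f := fun n : ℕ => 2 * n)).comp measurable_snd
  have htau : Measurable (tau D e) :=
    Measurable.sumElim (measurable_subtype_coe.comp measurable_fst) measurable_const
  let c : WW D e → ℕ → ℕ := fun w k => Nat.casesOn k (code w) fun k => (tau D e w k).toNat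
  have c0 : ∀ w, c w 0 = code w := fun w => rfl
  have cS : ∀ w k, c w (k + 1) = (tau D e w k).toNat := fun w k => rfl
  have htn : ∀ a b : Bool, a.toNat = b.toNat → a = b := by decide
  have hcm : Measurable c := by
    refine measurable_pi_lambda _ fun k => ?_
    cases k with
    | zero => exact hcode
    | succ k =>
      exact (measurable_from_top (f := Bool.toNat)).comp ((measurable_pi_apply k).comp htau)
  have hcτ : ∀ w w', c w = c w' → tau D e w = tau D e w' := by
    intro w w' h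
    funext k
    have := congrFun h (k + 1)
    rw [cS, cS] at this
    exact htn _ _ this
  have hci : Function.Injective c := by
    intro w w' h
    have h1 := congrFun h 0
    have h2 := hcτ w w' h
    rw [c0, c0] at h1
    rcases w with ⟨z, n⟩ | y <;> rcases w' with ⟨z', n'⟩ | y'
    · have h1 : 2 * n = 2 * n' := h1
      have h2 : (z : ZZ) = z' := h2
      rw [Subtype.ext h2, show n = n' by omega]
    · have h1 : 2 * n = 2 * en y' + 1 := h1
      omega
    · have h1 : 2 * en y + 1 = 2 * n' := h1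
      omega
    · have h1 : 2 * en y + 1 = 2 * en y' + 1 := h1
      rw [hen (show en y = en y' by omega)]
  have hcT : ∀ w w', TT D e w w' ↔ ∃ N, ∀ n, N ≤ n → c w n = c w' n := by
    intro w w'
    constructor
    · rintro ⟨N, hN⟩
      refine ⟨N + 1, fun n hn => ?_⟩
      obtain ⟨m, rfl⟩ : ∃ m, n = m + 1 := ⟨n - 1, by omega⟩
      rw [cS, cS, hN m (by omega)]
    · rintro ⟨N, hN⟩
      refine ⟨N, fun n hn => htn _ _ ?_⟩
      rw [← cS, ← cS]
      exact hN (n + 1) (by omega)
  let z0' : (Fsᶜ : Set ZZ) := ⟨z0, z0_fs⟩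
  let st : WW D e → ℕ → WW D e := fun w m =>
    Sum.elim (fun p => Sum.inl (p.1, 2 * Nat.pair p.2 m))
      (fun y => Sum.inl (z0', 2 * Nat.pair (en y) m + 1)) w
  have hst : ∀ m, Measurable fun w => st w m := by
    intro m
    refine Measurable.sumElim (measurable_inl.comp ?_) (measurable_of_countable _)
    refine measurable_fst.prodMk ?_
    exact (measurable_from_top (f := fun n : ℕ => 2 * Nat.pair n m)).comp measurable_snd
  have hstT : ∀ w n, TT D e w (st w n) := by
    rintro (⟨z, n⟩ | y) m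
    · exact tl_refl _
    · exact tl_refl _
  have hsti : ∀ w w' n n', st w n = st w' n' → w = w' ∧ n = n' := by
    rintro (⟨z, m⟩ | y) (⟨z', m'⟩ | y') n n' h
    · obtain ⟨h1, h2⟩ := Prod.ext_iff.1 (Sum.inl.inj h)
      have h1' : z = z' := h1
      have h2 : 2 * Nat.pair m n = 2 * Nat.pair m' n' := h2
      obtain ⟨h3, rfl⟩ := Nat.pair_eq_pair.1 (show Nat.pair m n = Nat.pair m' n' by omega)
      exact ⟨by rw [h1', h3], rfl⟩
    · obtain ⟨h1, h2⟩ := Prod.ext_iff.1 (Sum.inl.inj h)
      have h2 : 2 * Nat.pair m n = 2 * Nat.pair (en y') n' + 1 := h2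
      omega
    · obtain ⟨h1, h2⟩ := Prod.ext_iff.1 (Sum.inl.inj h)
      have h2 : 2 * Nat.pair (en y) n + 1 = 2 * Nat.pair m' n' := h2
      omega
    · obtain ⟨h1, h2⟩ := Prod.ext_iff.1 (Sum.inl.inj h)
      have h2 : 2 * Nat.pair (en y) n + 1 = 2 * Nat.pair (en y') n' + 1 := h2
      obtain ⟨h3, rfl⟩ := Nat.pair_eq_pair.1
        (show Nat.pair (en y) n = Nat.pair (en y') n' by omega)
      exact ⟨by rw [hen h3], rfl⟩
  obtain ⟨h, hh⟩ := Pool.Agent.TH635.CRAbs.absorb s hsm hsi E hE hs j hj1 hj2 hj3 (TT D e) c hcm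
    hci hcT st hst hstT hsti
  let f : X ≃ᵐ YY D e := h.symm.trans (gE D e)
  have hf : ∀ y y', E (f.symm y) (f.symm y') ↔ RY D e y y' := by
    intro y y'
    exact (hh _ _).symm
  obtain ⟨T⟩ := yy_cantor D e
  refine ⟨f.trans T.toMeasurableEquiv, ?_, ?_⟩
  · obtain ⟨K, hK1, hK2⟩ := RY_ksigma D e hs
    refine ⟨fun n => Prod.map T T '' K n, fun n => (hK1 n).image (T.continuous.prodMap T.continuous),
      ?_⟩
    rw [← image_iUnion, ← hK2]
    ext p
    constructor
    · intro hp
      exact ⟨(T.symm p.1, T.symm p.2), (hf _ _).1 hp,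
        Prod.ext (T.apply_symm_apply _) (T.apply_symm_apply _)⟩
    · rintro ⟨q, hq, rfl⟩
      show E (f.symm (T.symm (T q.1))) (f.symm (T.symm (T q.2)))
      rw [T.symm_apply_apply, T.symm_apply_apply]
      exact (hf _ _).2 hq
  · intro y
    have h1 := T.surjective.denseRange.dense_image T.continuous (RY_dense D e (T.symm y))
    refine h1.mono ?_
    rintro _ ⟨z, hz, rfl⟩
    show E (f.symm (T.symm y)) (f.symm (T.symm (T z)))
    rw [T.symm_apply_apply]
    exact (hf _ _).2 hz

/-- Every non-smooth aperiodic countable Borel equivalence relation has a minimal `K_σ`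
realization on the Cantor space. -/
theorem main1 {X : Type*} [MeasurableSpace X] [StandardBorelSpace X] (E : X → X → Prop)
    (hE : Equivalence E) (hm : MeasurableSet {p : X × X | E p.1 p.2})
    (hc : ∀ x, {y | E x y}.Countable) (ha : ∀ x, {y | E x y}.Infinite)
    (hns : ¬ ∃ T : Set X, MeasurableSet T ∧ ∀ x, ∃! y, y ∈ T ∧ E x y) :
    ∃ f : X ≃ᵐ (ℕ → Bool),
      (∃ K : ℕ → Set ((ℕ → Bool) × (ℕ → Bool)), (∀ n, IsCompact (K n)) ∧
        {p : (ℕ → Bool) × (ℕ → Bool) | E (f.symm p.1) (f.symm p.2)} = ⋃ n, K n) ∧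
      ∀ y, Dense {z | E (f.symm y) (f.symm z)} := by
  have hemb := measurableEmbedding_embeddingReal X
  let f0 : X ≃ᵐ range (embeddingReal X) := hemb.equivRange
  have : StandardBorelSpace (range (embeddingReal X)) := hemb.measurableSet_range.standardBorel
  have hinj : ∀ a, (fun b => f0.symm b) ⁻¹' {y | E (f0.symm a) y} =
      {b | E (f0.symm a) (f0.symm b)} := fun a => rfl
  obtain ⟨f, ⟨K, hK1, hK2⟩, hd⟩ := main0
    (fun a b : range (embeddingReal X) => E (f0.symm a) (f0.symm b))
    ⟨fun a => hE.refl _, fun h => hE.symm h, fun h h' => hE.trans h h'⟩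
    (hm.preimage ((f0.symm.measurable.comp measurable_fst).prodMk
      (f0.symm.measurable.comp measurable_snd)))
    (fun a => (hc (f0.symm a)).preimage_of_injOn f0.symm.injective.injOn)
    (fun a hfin => ha (f0.symm a) (by
      refine (hfin.image f0.symm).subset ?_
      intro y hy
      refine ⟨f0 y, ?_, f0.symm_apply_apply y⟩
      show E (f0.symm a) (f0.symm (f0 y))
      rw [f0.symm_apply_apply]
      exact hy))
    (by
      rintro ⟨T, hT1, hT2⟩
      refine hns ⟨f0 ⁻¹' T, f0.measurable hT1, fun x => ?_⟩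
      obtain ⟨b, ⟨hb1, hb2⟩, hb3⟩ := hT2 (f0 x)
      rw [f0.symm_apply_apply] at hb2
      refine ⟨f0.symm b, ⟨?_, hb2⟩, ?_⟩
      · show f0 (f0.symm b) ∈ T
        rw [f0.apply_symm_apply]
        exact hb1
      · rintro y ⟨hy1, hy2⟩
        have := hb3 (f0 y) ⟨hy1, by
          rw [f0.symm_apply_apply, f0.symm_apply_apply]
          exact hy2⟩
        rw [← this, f0.symm_apply_apply])
  exact ⟨f0.trans f, ⟨K, hK1, hK2⟩, hd⟩

end Pool.Agent.T2h30.KS
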